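import Pool.Agent.H15.ER.Fin

/-!
# Reduction to elementary algebras
-/

open TensorProduct Module MvPolynomial

namespace Pool.Agent.H15.ER

open Pool.Agent.H15.Defect Pool.Agent.H2.WG
open Pool.Agent.H14.RF hiding tr

universe u

variable {k : Type u} [Field k]

section loc

variable {A : Type u} [CommRing A] [Algebra k A]

theorem isLocalRing_of_point (α : A →ₐ[k] k) {c : ℕ} (hα : RingHom.ker α ^ c = ⊥) :
    IsLocalRing A := by
  have : Nontrivial A := by
    refine ⟨0, 1, fun h => ?_⟩
    have := congrArg α h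
    rw [map_zero, map_one] at this
    exact zero_ne_one this
  have hunit : ∀ a : A, α a ≠ 0 → IsUnit a := by
    intro a ha
    have h1 : IsNilpotent (a - algebraMap k A (α a)) := by
      refine ⟨c, ?_⟩
      have h2 : a - algebraMap k A (α a) ∈ RingHom.ker α := by
        rw [RingHom.mem_ker, map_sub, AlgHom.commutes]; simp
      have h3 := Ideal.pow_mem_pow h2 c
      rw [hα] at h3
      simpa using h3
    have h4 : IsUnit (algebraMap k A (α a)) := (IsUnit.mk0 _ ha).map _
    have h5 := h1.isUnit_add_left_of_commute h4 (Commute.all _ _)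
    rwa [add_sub_cancel] at h5
  refine IsLocalRing.of_isUnit_or_isUnit_one_sub_self fun a => ?_
  by_cases h : α a = 0
  · right
    apply hunit
    rw [map_sub, map_one, h, sub_zero]
    exact one_ne_zero
  · exact Or.inl (hunit a h)

/-- A finite algebra with a point is local or splits. -/
theorem local_or_split [Module.Finite k A] (α : A →ₐ[k] k) :
    (∃ c, RingHom.ker α ^ c = ⊥) ∨
    ∃ (A₁ A₂ : Type u) (_ : CommRing A₁) (_ : CommRing A₂) (_ : Algebra k A₁) (_ : Algebra k A₂),
      Module.Finite k A₁ ∧ Module.Finite k A₂ ∧ Nontrivial A₁ ∧ Nontrivial A₂ ∧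
        Nonempty (A ≃ₐ[k] A₁ × A₂) := by
  by_cases hnil : ∃ c, RingHom.ker α ^ c = ⊥
  · exact Or.inl hnil
  right
  have hart : IsArtinianRing A := IsArtinianRing.of_finite k A
  have hnoeth : IsNoetherianRing A := inferInstance
  obtain ⟨n, hn⟩ := IsArtinian.monotone_stabilizes (R := A) (M := A)
    ⟨fun n => OrderDual.toDual (RingHom.ker α ^ n), fun a b hab => Ideal.pow_le_pow_right hab⟩
  have hn' : ∀ m, n ≤ m → RingHom.ker α ^ n = RingHom.ker α ^ m := hn
  set J : Ideal A := RingHom.ker α ^ (n + 1) with hJ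
  have hJJ : IsIdempotentElem J := by
    show J * J = J
    rw [hJ, ← pow_add, ← hn' (n + 1) (by omega), ← hn' _ (by omega)]
  obtain ⟨e, he, hJe⟩ := (Ideal.isIdempotentElem_iff_of_fg J (IsNoetherian.noetherian J)).mp hJJ
  have he0 : e ≠ 0 := by
    rintro rfl
    apply hnil
    refine ⟨n + 1, ?_⟩
    rw [← hJ, hJe]
    simp
  have heα : α e = 0 := by
    have h1 : e ∈ J := by rw [hJe]; exact Ideal.mem_span_singleton_self e
    have h2 : J ≤ RingHom.ker α := Ideal.pow_le_self (by omega)
    exact h2 h1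
  let E := AlgEquiv.prodQuotientOfIsIdempotentElem k he he.one_sub (by ring)
    (by rw [mul_sub, mul_one, he.eq, sub_self])
  have hnt1 : Nontrivial (A ⧸ Ideal.span {e}) := by
    rw [Ideal.Quotient.nontrivial_iff]
    intro h
    have h1 : Ideal.span {e} ≤ RingHom.ker α := by
      rw [Ideal.span_singleton_le_iff_mem]; exact heα
    rw [h, top_le_iff] at h1
    have h2 : (1 : A) ∈ RingHom.ker α := h1 ▸ Submodule.mem_top
    rw [RingHom.mem_ker, map_one] at h2
    exact one_ne_zero h2
  have hnt2 : Nontrivial (A ⧸ Ideal.span {1 - e}) := by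
    rw [Ideal.Quotient.nontrivial_iff]
    intro h
    rw [Ideal.span_singleton_eq_top] at h
    have h1 : e * (1 - e) = 0 := by rw [mul_sub, mul_one, he.eq, sub_self]
    exact he0 ((IsUnit.mul_left_eq_zero h).mp h1)
  have hf1 : Module.Finite k (A ⧸ Ideal.span {e}) := Module.Finite.of_surjective
    (Ideal.Quotient.mkₐ k _).toLinearMap Ideal.Quotient.mk_surjective
  have hf2 : Module.Finite k (A ⧸ Ideal.span {1 - e}) := Module.Finite.of_surjective
    (Ideal.Quotient.mkₐ k _).toLinearMap Ideal.Quotient.mk_surjective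
  exact ⟨_, _, inferInstance, inferInstance, inferInstance, inferInstance, hf1, hf2, hnt1, hnt2,
    ⟨E⟩⟩

end loc

section red

variable [IsAlgClosed k]

/-- The reduction to elementary algebras in degrees at most `D`, for a class of algebras which is
open and closed under factors. -/
theorem reduction {τ : ℝ} (hτ : 1 ≤ τ)
    (G : ∀ (A : Type u) [CommRing A] [Algebra k A], Prop)
    (hG1 : ∀ (A A₁ A₂ : Type u) [CommRing A] [CommRing A₁] [CommRing A₂] [Algebra k A]
      [Algebra k A₁] [Algebra k A₂], Nonempty (A ≃ₐ[k] A₁ × A₂) → G A → G A₁ ∧ G A₂)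
    (hG2 : ∀ (n : ℕ) (A : Type u) [CommRing A] [Algebra k A] (b : Basis (Fin (n + 1)) k A),
      G A → ∃ P : MvPolynomial (Fin (n + 1) × Fin (n + 1) × Fin (n + 1)) k,
        eval (str b) P ≠ 0 ∧ ∀ (B : Type u) [CommRing B] [Algebra k B]
          (b' : Basis (Fin (n + 1)) k B), eval (str b') P ≠ 0 → G B)
    (D : ℕ)
    (H : ∀ (A : Type u) [CommRing A] [Algebra k A] [Module.Finite k A], finrank k A ≤ D →
      G A → IsElementary k A → Bd k A ((finrank k A : ℝ) ^ τ)) :
    ∀ (d : ℕ) (A : Type u) [CommRing A] [Algebra k A] [Module.Finite k A] [Nontrivial A],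
      finrank k A = d → finrank k A ≤ D → G A → Bd k A ((finrank k A : ℝ) ^ τ) := by
  intro d
  induction d using Nat.strong_induction_on with
  | _ d ih =>
    -- algebras of the class which split
    have hsplit : ∀ (B B₁ B₂ : Type u) [CommRing B] [CommRing B₁] [CommRing B₂] [Algebra k B]
        [Algebra k B₁] [Algebra k B₂] [Module.Finite k B] [Module.Finite k B₁]
        [Module.Finite k B₂] [Nontrivial B₁] [Nontrivial B₂], Nonempty (B ≃ₐ[k] B₁ × B₂) →
        finrank k B = d → finrank k B ≤ D → G B → Bd k B ((finrank k B : ℝ) ^ τ) := by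
      intro B B₁ B₂ _ _ _ _ _ _ _ _ _ _ _ hE hd hD hG
      obtain ⟨h1, h2⟩ := hG1 B B₁ B₂ hE hG
      obtain ⟨E⟩ := hE
      have hfr : finrank k B = finrank k B₁ + finrank k B₂ := by
        rw [← Module.finrank_prod]
        exact LinearEquiv.finrank_eq E.toLinearEquiv
      have hp1 := Module.finrank_pos (R := k) (M := B₁)
      have hp2 := Module.finrank_pos (R := k) (M := B₂)
      have hB1 := ih (finrank k B₁) (by omega) B₁ rfl (by omega) h1
      have hB2 := ih (finrank k B₂) (by omega) B₂ rfl (by omega) h2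
      have hB := (hB1.prod hB2).of_surjective (E.symm : _ →ₐ[k] B) E.symm.surjective
      refine hB.mono ?_
      rw [hfr]
      push_cast
      exact Real.add_rpow_le_rpow_add (Nat.cast_nonneg _) (Nat.cast_nonneg _) hτ
    intro A _ _ _ _ hd hD hG
    obtain ⟨α⟩ := exists_point (k := k) (A := A)
    rcases local_or_split α with ⟨c, hc⟩ | ⟨A₁, A₂, _, _, _, _, _, _, _, _, hE⟩
    swap
    · exact hsplit A A₁ A₂ hE hd hD hG
    by_contra hnot
    obtain ⟨n, b, hb, hbα⟩ := exists_adapted_basis α
    have hfin : ∀ (B : Type u) [CommRing B] [Algebra k B] (b' : Basis (Fin (n + 1)) k B),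
        Module.Finite k B ∧ finrank k B = finrank k A := by
      intro B _ _ b'
      refine ⟨Module.Finite.of_basis b', ?_⟩
      rw [finrank_eq_card_basis b', finrank_eq_card_basis b]
    have hA1 : (1 : ℝ) ≤ (finrank k A : ℝ) ^ τ := by
      have h1 : (1 : ℝ) ≤ finrank k A := by exact_mod_cast Module.finrank_pos (R := k) (M := A)
      exact Real.one_le_rpow h1 (by linarith)
    -- the algebras satisfying the bound
    let X : Set (Fin (n + 1) × Fin (n + 1) × Fin (n + 1) → k) :=
      {x | ∃ (B : Type u) (_ : CommRing B) (_ : Algebra k B)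
        (b' : Basis (Fin (n + 1)) k B), b' 0 = 1 ∧ str b' = x ∧
          Bd k B ((finrank k A : ℝ) ^ τ)}
    have hncl : ¬ InClosure X (str b) := fun hcl =>
      hnot (bd_of_inClosure_fin b hb α hc hbα hA1 X (fun x hx => hx) hcl)
    rw [InClosure] at hncl
    push Not at hncl
    obtain ⟨P, hPX, hPb⟩ := hncl
    obtain ⟨P', hP'b, hP'⟩ := hG2 n A b hG
    refine hnot (H A hD hG ⟨n, b, P * P', hb, ?_, fun B _ _ b' hb' hPP' => ?_⟩)
    · rw [map_mul]
      exact mul_ne_zero hPb hP'b
    · rw [map_mul] at hPP'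
      have hBG : G B := hP' B b' (right_ne_zero_of_mul hPP')
      obtain ⟨hBf, hBr⟩ := hfin B b'
      have hBn : ¬ Bd k B ((finrank k B : ℝ) ^ τ) := by
        intro hBd
        rw [hBr] at hBd
        exact left_ne_zero_of_mul hPP' (hPX _ ⟨B, _, _, b', hb', rfl, hBd⟩)
      have hBnt : Nontrivial B := by
        refine nontrivial_of_ne (b' 0) 0 (b'.ne_zero 0)
      obtain ⟨β⟩ := exists_point (k := k) (A := B)
      rcases local_or_split β with ⟨c', hc'⟩ | ⟨B₁, B₂, _, _, _, _, _, _, _, _, hE⟩
      · exact isLocalRing_of_point β hc'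
      · exact absurd (hsplit B B₁ B₂ hE (by omega) (by omega) hBG) hBn

end red

end Pool.Agent.H15.ER
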