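import Pool.Agent.H15.ER.Trunc

/-!
# Growth bounds are closed conditions at local algebras
-/

open TensorProduct Module MvPolynomial

namespace Pool.Agent.H15.ER

open Pool.Agent.H15.Defect Pool.Agent.H2.WG
open Pool.Agent.H14.RF hiding tr

universe u

section nil

variable {k : Type*} [Field k] {P : Type*} [CommRing P] [Algebra k P] {ι : Type*}

theorem aeval_monomial_mem (g : ι → P) (I : Ideal P) (hg : ∀ q, g q ∈ I) (d : ι →₀ ℕ) :
    aeval g (monomial d (1 : k)) ∈ I ^ d.degree := by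
  classical
  induction d using Finsupp.induction with
  | zero => simp
  | single_add q n f hq hn ih =>
    have h1 : (monomial (Finsupp.single q n + f)) (1 : k) =
        X q ^ n * monomial f (1 : k) := by
      rw [X_pow_eq_monomial, monomial_mul, one_mul]
    rw [h1, map_mul, map_pow, aeval_X, map_add, Finsupp.degree_single, pow_add]
    exact Ideal.mul_mem_mul (Ideal.pow_mem_pow (hg q) n) ih

theorem hom_eq_zero_of_nil (g : ι → P) (I : Ideal P) (hg : ∀ q, g q ∈ I) {L : ℕ}
    (hI : I ^ (L + 1) = ⊥) (f : MvPolynomial ι k) {s : ℕ} (hs : L < s) :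
    aeval g (homogeneousComponent s f) = 0 := by
  rw [homogeneousComponent_apply, map_sum]
  refine Finset.sum_eq_zero fun d hd => ?_
  rw [Finset.mem_filter] at hd
  have h1 := aeval_monomial_mem (k := k) g I hg d
  have h2 : aeval g (monomial d (1 : k)) = 0 := by
    have h3 : I ^ d.degree ≤ I ^ (L + 1) := Ideal.pow_le_pow_right (by omega)
    have h4 := h3 h1
    rw [hI] at h4
    simpa using h4
  have h5 : monomial d (coeff d f) = coeff d f • monomial d (1 : k) := by
    rw [smul_monomial, smul_eq_mul, mul_one]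
  rw [h5, map_smul, h2, smul_zero]

theorem aeval_eq_sum_hom (g : ι → P) (f : MvPolynomial ι k) :
    aeval g f = ∑ s ∈ Finset.range (f.totalDegree + 1), aeval g (homogeneousComponent s f) := by
  conv_lhs => rw [← sum_homogeneousComponent f]
  rw [map_sum]

end nil

section gens

variable {k : Type u} [Field k] {τ : Type} [Fintype τ] {A : Type u} [CommRing A] [Algebra k A]

theorem aeval_gen_surjective (b : Basis (Option τ) k A) (hb : b none = 1) (m : ℕ) :
    Function.Surjective (aeval (R := k) (gen b m)) := by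
  classical
  refine surjective_of_single _ fun l a => ?_
  refine ⟨∑ j : Option τ, b.repr a j • (match j with
    | none => (1 : MvPolynomial (Fin m × τ) k)
    | some i => X (l, i)), ?_⟩
  rw [map_sum]
  conv_rhs => rw [← b.sum_repr a, map_sum]
  refine Finset.sum_congr rfl fun j _ => ?_
  rw [map_smul, map_smul]
  congr 1
  cases j with
  | none => rw [map_one, hb, map_one]
  | some i => rw [aeval_X]; rfl

omit [Fintype τ] in
/-- The generators of powers of a local algebra generate a nilpotent ideal. -/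
theorem exists_nil_ideal (b : Basis (Option τ) k A) {c : ℕ} (α : A →ₐ[k] k)
    (hα : RingHom.ker α ^ c = ⊥) (hbα : ∀ i, α (b (some i)) = 0) (m : ℕ) :
    ∃ I : Ideal (⨂[k] _ : Fin m, A), (∀ q, gen b m q ∈ I) ∧ I ^ (m * c + 1) = ⊥ := by
  obtain ⟨β, hβ⟩ := Aug.pow ⟨α, hα⟩ m
  refine ⟨RingHom.ker β, fun q => ?_, hβ⟩
  have h1 : IsNilpotent (b (some q.2)) := by
    refine ⟨c, ?_⟩
    have h2 := Ideal.pow_mem_pow (RingHom.mem_ker.mpr (hbα q.2)) c
    rw [hα] at h2
    simpa using h2
  have h3 : IsNilpotent (β (gen b m q)) := (h1.map _).map β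
  exact RingHom.mem_ker.mpr h3.eq_zero

end gens

section closed

variable {k : Type u} [Field k] {τ : Type} [Fintype τ] {A : Type u} [CommRing A] [Algebra k A]

theorem exists_pow_lt' {r ρ : ℝ} (hr : 0 < r) (hρ : r < ρ) (c K : ℕ) :
    ∃ m : ℕ, 0 < m ∧ ((m * c + 1 : ℕ) : ℝ) ^ K * r ^ m < ρ ^ m := by
  obtain ⟨m, hm, hlt⟩ := exists_pow_lt (τ := (K : ℝ)) (Nat.cast_nonneg K) hr hρ c
  refine ⟨m, hm, lt_of_le_of_lt ?_ hlt⟩
  rw [Real.rpow_natCast]
  have h1 : (1 : ℝ) ≤ ((m * c + 1 : ℕ) : ℝ) := by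
    push_cast
    have : (0 : ℝ) ≤ (m : ℝ) * c := by positivity
    linarith
  have h2 : ((m * c + 1 : ℕ) : ℝ) ≤ 2 * ((m * c + 1 : ℕ) : ℝ) ^ 2 := by nlinarith
  gcongr

/-- An algebra with a basis `1, (b i)`. -/
structure Pt (k : Type u) [Field k] (τ : Type) where
  /-- the algebra -/
  B : Type u
  [ring : CommRing B]
  [alg : Algebra k B]
  /-- the basis -/
  b : Basis (Option τ) k B
  one : b none = 1

attribute [instance] Pt.ring Pt.alg

/-- One step: the growth of the `m`-th power of a local algebra in the Zariski closure. -/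
theorem bd_pow_of_inClosure (b : Basis (Option τ) k A) (hb : b none = 1) {c : ℕ}
    (α : A →ₐ[k] k) (hα : RingHom.ker α ^ c = ⊥) (hbα : ∀ i, α (b (some i)) = 0) {r : ℝ}
    (hr : 0 < r) (X : Set (SI τ → k))
    (hX : ∀ x ∈ X, ∃ p : Pt k τ, sc p.b = x ∧ Bd k p.B r)
    (hcl : InClosure X (sc b)) {m : ℕ} (hm : 0 < m) :
    Bd k (⨂[k] _ : Fin m, A) (((m * c + 1 : ℕ) : ℝ) ^ (Fintype.card (SI τ) + 1) * r ^ m) := by
  classical
  set L := m * c with hL
  obtain ⟨s, hsX, hcard, htest⟩ := hcl.exists_finset L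
  have hne : Nonempty (Pt k τ) := ⟨⟨A, b, hb⟩⟩
  choose! p hp hBd using hX
  have h1 := Cov.finset (k := k) (S := MvPolynomial (Fin m × τ) k) s
    (fun x => RingHom.ker (coneHom (k := k) (gen (p x).b m) (tr k L))) (r := r ^ m * (L + 1))
      (fun x hx => cov_cone hr (hBd x (hsX x hx)) (p x).b hm L)
  obtain ⟨I, hgI, hI⟩ := exists_nil_ideal b α hα hbα m
  have h2 : (⨅ x ∈ s, RingHom.ker (coneHom (k := k) (gen (p x).b m) (tr k L))) ≤
      RingHom.ker (aeval (R := k) (gen b m)) := by
    intro f hf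
    simp only [Ideal.mem_iInf] at hf
    rw [RingHom.mem_ker]
    show aeval (gen b m) f = 0
    rw [aeval_eq_sum_hom]
    refine Finset.sum_eq_zero fun e _ => ?_
    rcases Nat.lt_or_ge L e with he | he
    · exact hom_eq_zero_of_nil _ I hgI hI f he
    obtain ⟨P, hP1, hP2⟩ := CP.hom (k := k) (τ := τ) (m := m) f e
    apply (bm b m).repr.injective
    ext y
    rw [hP2 A b hb y, map_zero, Finsupp.zero_apply]
    refine htest (P y) ((hP1 y).trans he) fun x hx => ?_
    have h3 := hom_eq_zero_of_cone (p x).b he (RingHom.mem_ker.mp (hf x hx))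
    have h4 := hP2 (p x).B (p x).b (p x).one y
    beta_reduce at h4
    rw [h3, map_zero, Finsupp.zero_apply, hp x (hsX x hx)] at h4
    exact h4.symm
  obtain ⟨Q, _, _, F, hF, hQ⟩ := h1.mono h2 (s := ((m * c + 1 : ℕ) : ℝ) ^
      (Fintype.card (SI τ) + 1) * r ^ m) (by
    have h5 : (s.card : ℝ) ≤ ((m * c + 1 : ℕ) : ℝ) ^ Fintype.card (SI τ) := by
      exact_mod_cast hcard
    calc (s.card : ℝ) * (r ^ m * (L + 1)) ≤
        ((m * c + 1 : ℕ) : ℝ) ^ Fintype.card (SI τ) * (r ^ m * (L + 1)) := by gcongr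
      _ = _ := by rw [hL]; push_cast; ring)
  exact hQ.of_ker_le F (aeval (R := k) (gen b m)) (aeval_gen_surjective b hb m) hF

/-- A growth bound which holds on a set of algebras holds for all local algebras in its Zariski
closure. -/
theorem bd_of_inClosure (b : Basis (Option τ) k A) (hb : b none = 1) {c : ℕ}
    (α : A →ₐ[k] k) (hα : RingHom.ker α ^ c = ⊥) (hbα : ∀ i, α (b (some i)) = 0) {r : ℝ}
    (hr : 1 ≤ r) (X : Set (SI τ → k))
    (hX : ∀ x ∈ X, ∃ p : Pt k τ, sc p.b = x ∧ Bd k p.B r)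
    (hcl : InClosure X (sc b)) : Bd k A r := by
  intro ρ hρ
  obtain ⟨m, hm, hlt⟩ := exists_pow_lt' (by linarith) hρ c (Fintype.card (SI τ) + 1)
  exact (bd_pow_of_inClosure b hb α hα hbα (by linarith) X hX hcl hm).of_pow α hm
    (by linarith) hlt

end closed

end Pool.Agent.H15.ER
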