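import Mathlib

/-!
# Structure constants, Gorenstein algebras, elementary algebras
-/

open Module MvPolynomial

namespace Pool.Agent.H15.ER

universe u

section defs

variable (k : Type u) [Field k]

/-- The structure constants of an algebra in a basis: the coordinate number `t.2.2` of the product
of the basis elements number `t.1` and `t.2.1`. -/
noncomputable def str {k : Type u} [Field k] {ι : Type} {A : Type u} [CommRing A] [Algebra k A]
    (b : Basis ι k A) : ι × ι × ι → k := fun t => b.repr (b t.1 * b t.2.1) t.2.2

/-- A finite-dimensional commutative algebra `A` is Gorenstein: some linear form `f` has the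
property that `(x, y) ↦ f (x * y)` is nondegenerate. -/
def IsGor (A : Type u) [CommRing A] [Algebra k A] : Prop :=
  ∃ f : A →ₗ[k] k, ∀ x, (∀ y, f (x * y) = 0) → x = 0

/-- `Spec A` is elementary: there are a basis `1 = b₀, b₁, …, bₙ` of `A` and a polynomial `P` in
the structure constants which is not zero at `(A, b)` such that all algebras `B` with a basis
`1 = b'₀, b'₁, …, b'ₙ` at which `P` is not zero are local. In other words, all finite schemes in a
Zariski neighbourhood of `Spec A` in the variety of algebra structures have only one point. -/
def IsElementary (A : Type u) [CommRing A] [Algebra k A] : Prop :=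
  ∃ (n : ℕ) (b : Basis (Fin (n + 1)) k A)
    (P : MvPolynomial (Fin (n + 1) × Fin (n + 1) × Fin (n + 1)) k),
    b 0 = 1 ∧ eval (str b) P ≠ 0 ∧
    ∀ (B : Type u) [CommRing B] [Algebra k B] (b' : Basis (Fin (n + 1)) k B),
      b' 0 = 1 → eval (str b') P ≠ 0 → IsLocalRing B

end defs

end Pool.Agent.H15.ER
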