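import Mathlib

/-!
# Points over an algebraically closed subfield are dense
-/

open MvPolynomial Module

namespace Pool.Agent.H15.ER

variable {K k : Type*} [Field K] [Field k] [Algebra K k] {σ : Type*}

/-- A coordinate of a polynomial with respect to a basis of the extension. -/
noncomputable def coordPoly {ι : Type*} (b : Basis ι K k) (j : ι) (P : MvPolynomial σ k) :
    MvPolynomial σ K :=
  ∑ m ∈ P.support, monomial m (b.repr (coeff m P) j)

theorem eval_coordPoly {ι : Type*} (b : Basis ι K k) (j : ι) (P : MvPolynomial σ k)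
    (x : σ → K) :
    aeval x (coordPoly b j P) = b.repr (eval (fun i => algebraMap K k (x i)) P) j := by
  rw [coordPoly, map_sum, eval_eq, map_sum, Finsupp.coe_finsetSum, Finset.sum_apply]
  refine Finset.sum_congr rfl fun m _ => ?_
  rw [aeval_monomial, Algebra.algebraMap_self, RingHom.id_apply]
  have h1 : coeff m P * ∏ i ∈ m.support, (algebraMap K k (x i)) ^ m i =
      (m.prod fun i e => x i ^ e) • coeff m P := by
    rw [Algebra.smul_def, Finsupp.prod, map_prod, mul_comm]
    congr 1
    refine Finset.prod_congr rfl fun i _ => ?_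
    rw [map_pow]
  rw [h1, map_smul, Finsupp.smul_apply, smul_eq_mul, mul_comm]

theorem eval_eq_sum_coordPoly {ι : Type*} (b : Basis ι K k) (P : MvPolynomial σ k)
    (y : σ → k) (hy : ∀ j, aeval y (coordPoly b j P) = 0) : eval y P = 0 := by
  classical
  let T : Finset ι := P.support.biUnion fun m => (b.repr (coeff m P)).support
  have h1 : ∀ m ∈ P.support, coeff m P = ∑ j ∈ T, (b.repr (coeff m P) j) • b j := by
    intro m hm
    conv_lhs => rw [← b.linearCombination_repr (coeff m P), Finsupp.linearCombination_apply,
      Finsupp.sum]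
    refine Finset.sum_subset ?_ ?_
    · intro j hj
      exact Finset.mem_biUnion.mpr ⟨m, hm, hj⟩
    · intro j _ hj
      rw [Finsupp.notMem_support_iff.mp hj, zero_smul]
  have h2 : eval y P = ∑ j ∈ T, b j * aeval y (coordPoly b j P) := by
    rw [eval_eq]
    have h3 : ∀ m ∈ P.support, coeff m P * ∏ i ∈ m.support, y i ^ m i =
        ∑ j ∈ T, b j * (algebraMap K k (b.repr (coeff m P) j) * ∏ i ∈ m.support, y i ^ m i) := by
      intro m hm
      conv_lhs => rw [h1 m hm]
      rw [Finset.sum_mul]
      refine Finset.sum_congr rfl fun j _ => ?_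
      rw [Algebra.smul_def]
      ring
    rw [Finset.sum_congr rfl h3, Finset.sum_comm]
    refine Finset.sum_congr rfl fun j _ => ?_
    rw [← Finset.mul_sum, coordPoly, map_sum]
    congr 1
    refine Finset.sum_congr rfl fun m _ => ?_
    rw [aeval_monomial, Finsupp.prod]
  rw [h2]
  refine Finset.sum_eq_zero fun j _ => ?_
  rw [hy j, mul_zero]

/-- **Density.** A polynomial which vanishes at all solutions, over the small field, of a system of
equations over the small field vanishes at all solutions over the large field. -/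
theorem dense_points [IsAlgClosed K] [IsAlgClosed k] [Finite σ] (S : Set (MvPolynomial σ K))
    (P : MvPolynomial σ k)
    (h : ∀ x : σ → K, (∀ p ∈ S, aeval x p = 0) → eval (fun i => algebraMap K k (x i)) P = 0)
    {y : σ → k} (hy : ∀ p ∈ S, aeval y p = 0) : eval y P = 0 := by
  let b := Basis.ofVectorSpace K k
  refine eval_eq_sum_coordPoly b P y fun j => ?_
  have h1 : coordPoly b j P ∈ vanishingIdeal K (zeroLocus K (Ideal.span S)) := by
    rw [mem_vanishingIdeal_iff]
    intro x hx
    rw [zeroLocus_span] at hx
    rw [eval_coordPoly, h x hx, map_zero, Finsupp.zero_apply]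
  rw [vanishingIdeal_zeroLocus_eq_radical, ← vanishingIdeal_zeroLocus_eq_radical (K := k),
    mem_vanishingIdeal_iff] at h1
  refine h1 y ?_
  rw [zeroLocus_span]
  exact hy

/-- Solvability descends. -/
theorem exists_solution [IsAlgClosed K] [IsAlgClosed k] [Finite σ] (S : Set (MvPolynomial σ K))
    {y : σ → k} (hy : ∀ p ∈ S, aeval y p = 0) : ∃ x : σ → K, ∀ p ∈ S, aeval x p = 0 := by
  by_contra hcon
  have h := dense_points (K := K) (k := k) S 1 (fun x hx => absurd ⟨x, hx⟩ hcon) hy
  rw [map_one] at h
  exact one_ne_zero h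

end Pool.Agent.H15.ER
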