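import Pool.Agent.H15.ER.FormCl
import Pool.Agent.H15.ER.Dense

/-!
# Forms and extensions of algebraically closed fields
-/

open TensorProduct Module MvPolynomial Filter Topology

namespace Pool.Agent.H15.ER

open Pool.Agent.H15.Defect Pool.Agent.H2.WG
open Pool.Agent.H14.RF hiding tr

universe u

/-- exponents of degree at most `c` -/
abbrev Box (σ : Type) (c : ℕ) : Type := {e : σ →₀ ℕ // e.degree ≤ c}

theorem finite_box (σ : Type) [Finite σ] (c : ℕ) : Finite (Box σ c) :=
  (Finsupp.finite_of_degree_le (σ := σ) c).to_subtype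

section fac

variable {k : Type*} [Field k] {σ : Type} {c : ℕ}

/-- A factorisation of the catalecticant matrices. -/
def Fac (φ : MvPolynomial σ k →ₗ[k] k) (c d : ℕ) (u w : Box σ c → Fin d → k) : Prop :=
  ∀ a b : Box σ c, φ (monomial (a.1 + b.1) 1) = ∑ i, u a i * w b i

theorem exists_fac [Finite σ] {φ : MvPolynomial σ k →ₗ[k] k} (hφ : IsForm φ c) {d : ℕ}
    (hd : finrank k (FormAlg φ) ≤ d) : ∃ u w : Box σ c → Fin d → k, Fac φ c d u w := by
  classical
  have := hφ.finite
  let b := Module.finBasis k (FormAlg φ)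
  let f : Fin (finrank k (FormAlg φ)) → Fin d := Fin.castLE hd
  have hf : Function.Injective f := Fin.castLE_injective hd
  obtain ⟨ff, hff⟩ := exists_formFun φ
  let mo : (σ →₀ ℕ) → FormAlg φ := fun a => Ideal.Quotient.mk _ (monomial a 1)
  refine ⟨fun a i => if h : (i : ℕ) < finrank k (FormAlg φ) then b.repr (mo a.1) ⟨i, h⟩ else 0,
    fun e i => if h : (i : ℕ) < finrank k (FormAlg φ) then ff (b ⟨i, h⟩ * mo e.1) else 0,
    fun a e => ?_⟩
  have h1 : φ (monomial (a.1 + e.1) 1) = ff (mo a.1 * mo e.1) := by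
    rw [← map_mul, hff, monomial_mul, mul_one]
  have h2 : ff (mo a.1 * mo e.1) = ∑ i, b.repr (mo a.1) i * ff (b i * mo e.1) := by
    conv_lhs => rw [← b.sum_repr (mo a.1)]
    rw [Finset.sum_mul, map_sum]
    refine Finset.sum_congr rfl fun i _ => ?_
    rw [smul_mul_assoc, map_smul, smul_eq_mul]
  rw [h1, h2]
  have h3 : ∑ i, b.repr (mo a.1) i * ff (b i * mo e.1) =
      ∑ j ∈ Finset.univ.image f, (if h : (j : ℕ) < finrank k (FormAlg φ) then
        b.repr (mo a.1) ⟨j, h⟩ else 0) * (if h : (j : ℕ) < finrank k (FormAlg φ) then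
          ff (b ⟨j, h⟩ * mo e.1) else 0) := by
    rw [Finset.sum_image fun x _ y _ h => hf h]
    refine Finset.sum_congr rfl fun i _ => ?_
    have h4 : ((f i : Fin d) : ℕ) < finrank k (FormAlg φ) := i.2
    rw [dif_pos h4, dif_pos h4]
    rfl
  rw [h3]
  refine Finset.sum_subset (Finset.subset_univ _) fun j _ hj => ?_
  rw [dif_neg, zero_mul]
  intro h
  exact hj (Finset.mem_image.mpr ⟨⟨j, h⟩, Finset.mem_univ _, rfl⟩)

theorem finrank_le_of_fac [Finite σ] {φ : MvPolynomial σ k →ₗ[k] k} (hφ : IsForm φ c) {d : ℕ}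
    {u w : Box σ c → Fin d → k} (h : Fac φ c d u w) : finrank k (FormAlg φ) ≤ d := by
  classical
  let U : MvPolynomial σ k →ₗ[k] (Fin d → k) :=
    (basisMonomials σ k).constr k fun e => if h : e.degree ≤ c then u ⟨e, h⟩ else 0
  have hU : ∀ e : σ →₀ ℕ, U (monomial e 1) = if h : e.degree ≤ c then u ⟨e, h⟩ else 0 := by
    intro e
    have h := (basisMonomials σ k).constr_basis k
      (fun e => if h : e.degree ≤ c then u ⟨e, h⟩ else 0) e
    rwa [coe_basisMonomials] at h
  have h1 : ∀ (e : Box σ c) (g : MvPolynomial σ k),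
      φ (g * monomial e.1 1) = ∑ i, U g i * w e i := by
    intro e g
    let W : (Fin d → k) →ₗ[k] k := ∑ i, w e i • LinearMap.proj i
    have hW : ∀ x, W x = ∑ i, x i * w e i := by
      intro x
      simp [W, mul_comm]
    have h2 : φ ∘ₗ LinearMap.mulRight k (monomial e.1 (1 : k)) = W ∘ₗ U := by
      refine MvPolynomial.linearMap_ext fun a => LinearMap.ext_ring ?_
      simp only [LinearMap.coe_comp, Function.comp_apply, LinearMap.mulRight_apply,
        monomial_mul, mul_one]
      rw [hU, hW]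
      split_ifs with ha
      · exact h ⟨a, ha⟩ e
      · rw [hφ]
        · simp
        · rw [map_add]; omega
    have h3 := LinearMap.congr_fun h2 g
    rw [LinearMap.comp_apply, LinearMap.comp_apply, hW] at h3
    exact h3
  have h2 : LinearMap.ker U ≤ (annIdeal φ).restrictScalars k := by
    intro g hg
    rw [Submodule.restrictScalars_mem, mem_annIdeal_iff_monomial]
    intro e
    by_cases he : e.degree ≤ c
    · rw [h1 ⟨e, he⟩, LinearMap.mem_ker.mp hg]
      simp
    · exact hφ.apply_mul_monomial g (by omega)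
  have h3 : finrank k (MvPolynomial σ k ⧸ LinearMap.ker U) ≤ d := by
    rw [U.quotKerEquivRange.finrank_eq]
    refine (Submodule.finrank_le _).trans ?_
    simp
  have h4 : Module.Finite k (MvPolynomial σ k ⧸ LinearMap.ker U) :=
    Module.Finite.equiv U.quotKerEquivRange.symm
  refine le_trans ?_ h3
  refine LinearMap.finrank_le_finrank_of_surjective
    (f := Submodule.liftQ (LinearMap.ker U) (Ideal.Quotient.mkₐ k (annIdeal φ)).toLinearMap ?_) ?_
  · intro g hg
    have := h2 hg
    rw [Submodule.restrictScalars_mem] at this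
    simpa [LinearMap.mem_ker, Ideal.Quotient.eq_zero_iff_mem] using this
  · intro x
    obtain ⟨g, rfl⟩ := Ideal.Quotient.mk_surjective x
    exact ⟨Submodule.Quotient.mk g, rfl⟩

end fac

section ext

variable {K k : Type*} [Field K] [Field k] [Algebra K k] {σ : Type} {c : ℕ}

variable (k) in
/-- Extension of scalars of a form. -/
noncomputable def bc (c : ℕ) (φ : MvPolynomial σ K →ₗ[K] K) : MvPolynomial σ k →ₗ[k] k :=
  ofCf c fun e => algebraMap K k (cf c φ e)

theorem isForm_bc (φ : MvPolynomial σ K →ₗ[K] K) : IsForm (bc k c φ) c := isForm_ofCf _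

theorem bc_monomial {φ : MvPolynomial σ K →ₗ[K] K} (hφ : IsForm φ c) (e : σ →₀ ℕ) :
    bc k c φ (monomial e 1) = algebraMap K k (φ (monomial e 1)) := by
  classical
  rw [bc, ofCf_monomial]
  split_ifs with h
  · rfl
  · rw [hφ _ h, map_zero]

theorem bc_ne_zero {φ : MvPolynomial σ K →ₗ[K] K} (hφ : IsForm φ c) (h0 : φ ≠ 0) :
    bc k c φ ≠ 0 := by
  intro h
  apply h0
  refine MvPolynomial.linearMap_ext fun e => LinearMap.ext_ring ?_
  simp only [LinearMap.coe_comp, Function.comp_apply, LinearMap.zero_comp, LinearMap.zero_apply]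
  apply (algebraMap K k).injective
  rw [← bc_monomial hφ, h, map_zero, LinearMap.zero_apply]

theorem pw_bc_monomial {φ : MvPolynomial σ K →ₗ[K] K} (hφ : IsForm φ c) (N : ℕ)
    (e : (Fin N × σ) →₀ ℕ) :
    pw (bc k c φ) (Fin N) (monomial e 1) = algebraMap K k (pw φ (Fin N) (monomial e 1)) := by
  rw [pw_monomial, pw_monomial, map_prod]
  exact Finset.prod_congr rfl fun j _ => bc_monomial hφ _

theorem hasWaring_bc {φ : MvPolynomial σ K →ₗ[K] K} (hφ : IsForm φ c) (N r : ℕ)
    (h : HasWaring (pw φ (Fin N)) (c * N) r) : HasWaring (pw (bc k c φ) (Fin N)) (c * N) r := by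
  rw [hasWaring_iff] at h ⊢
  obtain ⟨co, a, h⟩ := h
  refine ⟨fun s => algebraMap K k (co s), fun s q => algebraMap K k (a s q), fun e he => ?_⟩
  rw [pw_bc_monomial hφ, h e he, map_sum]
  refine Finset.sum_congr rfl fun s _ => ?_
  rw [map_mul, Finsupp.prod, Finsupp.prod, map_prod]
  congr 1
  refine Finset.prod_congr rfl fun q _ => ?_
  rw [map_pow]

/-- Waring decompositions descend. -/
theorem hasWaring_of_bc [IsAlgClosed K] [IsAlgClosed k] [Finite σ]
    {φ : MvPolynomial σ K →ₗ[K] K} (hφ : IsForm φ c) (N r : ℕ)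
    (h : HasWaring (pw (bc k c φ) (Fin N)) (c * N) r) : HasWaring (pw φ (Fin N)) (c * N) r := by
  rw [hasWaring_iff] at h ⊢
  obtain ⟨co, a, h⟩ := h
  let S : Set (MvPolynomial (Fin r × Option (Fin N × σ)) K) :=
    {p | ∃ e : (Fin N × σ) →₀ ℕ, e.degree = c * N ∧
      p = ∑ s, X (s, none) * (e.prod fun q n => X (s, some q) ^ n) -
        C (pw φ (Fin N) (monomial e 1))}
  obtain ⟨x, hx⟩ := exists_solution (K := K) (k := k) S
    (y := fun t => t.2.elim (co t.1) (a t.1)) (by
      rintro p ⟨e, he, rfl⟩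
      rw [map_sub, map_sum, aeval_C, ← pw_bc_monomial hφ, h e he, sub_eq_zero]
      refine Finset.sum_congr rfl fun s _ => ?_
      rw [map_mul, aeval_X, Finsupp.prod, Finsupp.prod, map_prod]
      congr 1
      refine Finset.prod_congr rfl fun q _ => ?_
      rw [map_pow, aeval_X]
      rfl)
  refine ⟨fun s => x (s, none), fun s q => x (s, some q), fun e he => ?_⟩
  have h1 := hx _ ⟨e, he, rfl⟩
  rw [map_sub, map_sum, aeval_C, sub_eq_zero] at h1
  rw [Algebra.algebraMap_self, RingHom.id_apply] at h1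
  rw [← h1]
  refine Finset.sum_congr rfl fun s _ => ?_
  rw [map_mul, aeval_X, Finsupp.prod, Finsupp.prod, map_prod]
  congr 1
  refine Finset.prod_congr rfl fun q _ => ?_
  rw [map_pow, aeval_X]

theorem Wn_bc [IsAlgClosed K] [IsAlgClosed k] [Fintype σ]
    {φ : MvPolynomial σ K →ₗ[K] K} (hφ : IsForm φ c) (N : ℕ) :
    Wn (bc k c φ) c N = Wn φ c N := by
  have : Infinite K := IsAlgClosed.instInfinite
  have : Infinite k := IsAlgClosed.instInfinite
  exact le_antisymm (waringRank_le (hasWaring_bc hφ N _ (hasWaring_rank _ _)))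
    (waringRank_le (hasWaring_of_bc (k := k) hφ N _ (hasWaring_rank _ _)))

theorem fac_bc {φ : MvPolynomial σ K →ₗ[K] K} (hφ : IsForm φ c) {d : ℕ}
    {u w : Box σ c → Fin d → K} (h : Fac φ c d u w) :
    Fac (bc k c φ) c d (fun a i => algebraMap K k (u a i)) (fun a i => algebraMap K k (w a i)) := by
  intro a b
  rw [bc_monomial hφ, h a b, map_sum]
  refine Finset.sum_congr rfl fun i _ => ?_
  rw [map_mul]

theorem finrank_bc_le [Finite σ] {φ : MvPolynomial σ K →ₗ[K] K} (hφ : IsForm φ c) :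
    finrank k (FormAlg (bc k c φ)) ≤ finrank K (FormAlg φ) := by
  obtain ⟨u, w, h⟩ := exists_fac hφ le_rfl
  exact finrank_le_of_fac (isForm_bc φ) (fac_bc (k := k) hφ h)

end ext

end Pool.Agent.H15.ER
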