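import Pool.Agent.H15.ER.Closed

/-!
# Quotients of a fixed algebra: growth bounds are closed conditions
-/

open TensorProduct Module MvPolynomial

namespace Pool.Agent.H15.ER

open Pool.Agent.H15.Defect
open Pool.Agent.H14.RF hiding tr

universe u

/-- In a sequence of points, some point lies in the closure of all tails. -/
theorem exists_inClosure_tails {k : Type*} [Field k] {σ : Type*} [Finite σ] (x : ℕ → σ → k) :
    ∃ j, ∀ N, InClosure {y | ∃ i, N ≤ i ∧ x i = y} (x j) := by
  let I : ℕ →o Ideal (MvPolynomial σ k) :=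
    ⟨fun j => vanishingIdeal k {y | ∃ i, j ≤ i ∧ x i = y}, by
      intro j j' h
      apply vanishingIdeal_anti_mono
      rintro y ⟨i, hi, rfl⟩
      exact ⟨i, h.trans hi, rfl⟩⟩
  obtain ⟨n, hn⟩ := monotone_stabilizes_iff_noetherian.mpr
    (inferInstance : IsNoetherian (MvPolynomial σ k) (MvPolynomial σ k)) I
  refine ⟨n, fun N P hP => ?_⟩
  have h1 : P ∈ I (max n N) := by
    show P ∈ vanishingIdeal k _
    rw [mem_vanishingIdeal_iff]
    rintro y ⟨i, hi, rfl⟩
    exact hP _ ⟨i, (le_max_right n N).trans hi, rfl⟩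
  rw [← hn (max n N) (le_max_left n N)] at h1
  have h2 : P ∈ vanishingIdeal k {y | ∃ i, n ≤ i ∧ x i = y} := h1
  rw [mem_vanishingIdeal_iff] at h2
  exact h2 _ ⟨n, le_rfl, rfl⟩

section frame

variable {k : Type u} [Field k] {P : Type u} [CommRing P] [Algebra k P] {β δ : Type}
  [Fintype β] [Fintype δ]

/-- The matrix of a homomorphism `P → A` in given bases. -/
noncomputable def frame (p : Basis β k P) {A : Type u} [CommRing A] [Algebra k A]
    (a : Basis δ k A) (π : P →ₐ[k] A) : δ × β → k := fun t => a.repr (π (p t.2)) t.1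

theorem repr_eq_frame (p : Basis β k P) {A : Type u} [CommRing A] [Algebra k A]
    (a : Basis δ k A) (π : P →ₐ[k] A) (z : P) (y : δ) :
    a.repr (π z) y = ∑ w, p.repr z w * frame p a π (y, w) := by
  conv_lhs => rw [← p.sum_repr z, map_sum, map_sum, Finsupp.coe_finsetSum, Finset.sum_apply]
  refine Finset.sum_congr rfl fun w _ => ?_
  rw [map_smul, map_smul, Finsupp.smul_apply, smul_eq_mul]
  rfl

variable (k) in
/-- The polynomial giving a coordinate of the image of an element of a power. -/
noncomputable def framePoly (m : ℕ) (c : (Fin m → β) → k) (y : Fin m → δ) :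
    MvPolynomial (δ × β) k :=
  ∑ w : Fin m → β, C (c w) * ∏ l, X (y l, w l)

theorem totalDegree_framePoly [DecidableEq β] (m : ℕ) (c : (Fin m → β) → k) (y : Fin m → δ) :
    (framePoly k m c y).totalDegree ≤ m := by
  refine (totalDegree_finsetSum _ _).trans (Finset.sup_le fun w _ => ?_)
  refine (totalDegree_mul _ _).trans ?_
  rw [totalDegree_C, zero_add]
  refine (totalDegree_finsetProd _ _).trans ?_
  simp

theorem repr_powMap (p : Basis β k P) {A : Type u} [CommRing A] [Algebra k A]
    (a : Basis δ k A) (π : P →ₐ[k] A) (m : ℕ) (z : ⨂[k] _ : Fin m, P) (y : Fin m → δ) :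
    (Basis.piTensorProduct fun _ : Fin m => a).repr (powMap π m z) y =
      eval (frame p a π) (framePoly k m
        (fun w => (Basis.piTensorProduct fun _ : Fin m => p).repr z w) y) := by
  classical
  simp only [framePoly, map_sum, map_mul, eval_C, map_prod, eval_X]
  induction z using PiTensorProduct.induction_on with
  | smul_tprod r x =>
    rw [map_smul, powMap_tprod, map_smul, Finsupp.smul_apply,
      Basis.piTensorProduct_repr_tprod_apply, smul_eq_mul]
    simp only [repr_eq_frame p a π]
    rw [Finset.prod_univ_sum, Finset.mul_sum, ← Fintype.piFinset_univ]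
    refine Finset.sum_congr rfl fun w _ => ?_
    rw [map_smul, Finsupp.smul_apply, Basis.piTensorProduct_repr_tprod_apply, smul_eq_mul,
      Finset.prod_mul_distrib]
    ring
  | add x z hx hz =>
    rw [map_add, map_add, Finsupp.add_apply, hx, hz, ← Finset.sum_add_distrib]
    refine Finset.sum_congr rfl fun w _ => ?_
    rw [map_add, Finsupp.add_apply, add_mul]

/-- A quotient of `P` with a basis. -/
structure Qt (k : Type u) [Field k] (P : Type u) [CommRing P] [Algebra k P] (δ : Type) where
  /-- the algebra -/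
  B : Type u
  [ring : CommRing B]
  [alg : Algebra k B]
  /-- the basis -/
  b : Basis δ k B
  /-- the homomorphism -/
  π : P →ₐ[k] B

attribute [instance] Qt.ring Qt.alg

theorem powMap_surjective {A : Type u} [CommRing A] [Algebra k A] (π : P →ₐ[k] A)
    (hπ : Function.Surjective π) (m : ℕ) : Function.Surjective (powMap π m) := by
  refine surjective_of_single _ fun i a => ?_
  obtain ⟨p, rfl⟩ := hπ a
  refine ⟨PiTensorProduct.singleAlgHom (R := k) (A := fun _ : Fin m => P) i p, ?_⟩
  rw [powMap, prodHom_single]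
  rfl

theorem bd_pow_of_frames (p : Basis β k P) {A : Type u} [CommRing A] [Algebra k A]
    (a : Basis δ k A) (π : P →ₐ[k] A) (hπ : Function.Surjective π) {r : ℝ}
    (hr : 0 ≤ r) (X : Set (δ × β → k))
    (hX : ∀ x ∈ X, ∃ q : Qt k P δ, frame p q.b q.π = x ∧ Bd k q.B r)
    (hcl : InClosure X (frame p a π)) {m : ℕ} (hm : 0 < m) :
    Bd k (⨂[k] _ : Fin m, A) (((m * 1 + 1 : ℕ) : ℝ) ^ (Fintype.card (δ × β)) * r ^ m) := by
  classical
  obtain ⟨s, hsX, hcard, htest⟩ := hcl.exists_finset m
  have hne : Nonempty (Qt k P δ) := ⟨⟨A, a, π⟩⟩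
  choose! q hq hBd using hX
  have h1 := Cov.finset (k := k) (S := ⨂[k] _ : Fin m, P) s
    (fun x => RingHom.ker (powMap (q x).π m)) (r := r ^ m)
      (fun x hx => ⟨_, _, _, powMap (q x).π m, le_rfl, (hBd x (hsX x hx)).pow hr hm⟩)
  have h2 : (⨅ x ∈ s, RingHom.ker (powMap (q x).π m)) ≤ RingHom.ker (powMap π m) := by
    intro f hf
    simp only [Ideal.mem_iInf] at hf
    rw [RingHom.mem_ker]
    apply (Basis.piTensorProduct fun _ : Fin m => a).repr.injective
    ext y
    rw [repr_powMap p, map_zero, Finsupp.zero_apply]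
    refine htest _ (totalDegree_framePoly _ _ _) fun x hx => ?_
    have h3 := RingHom.mem_ker.mp (hf x hx)
    have h4 := repr_powMap p (q x).b (q x).π m f y
    rw [h3, map_zero, Finsupp.zero_apply, hq x (hsX x hx)] at h4
    exact h4.symm
  obtain ⟨Q, _, _, F, hF, hQ⟩ := h1.mono h2 (s := ((m * 1 + 1 : ℕ) : ℝ) ^
      (Fintype.card (δ × β)) * r ^ m) (by
    have h5 : (s.card : ℝ) ≤ ((m * 1 + 1 : ℕ) : ℝ) ^ Fintype.card (δ × β) := by
      rw [mul_one]
      exact_mod_cast hcard
    gcongr)
  exact hQ.of_ker_le F (powMap π m) (powMap_surjective π hπ m) hF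

/-- A growth bound which holds on a set of quotients holds in the Zariski closure. -/
theorem bd_of_frames (p : Basis β k P) {A : Type u} [CommRing A] [Algebra k A]
    (a : Basis δ k A) (π : P →ₐ[k] A) (hπ : Function.Surjective π) (α : A →ₐ[k] k) {r : ℝ}
    (hr : 1 ≤ r) (X : Set (δ × β → k))
    (hX : ∀ x ∈ X, ∃ q : Qt k P δ, frame p q.b q.π = x ∧ Bd k q.B r)
    (hcl : InClosure X (frame p a π)) : Bd k A r := by
  intro ρ hρ
  obtain ⟨m, hm, hlt⟩ := exists_pow_lt' (by linarith) hρ 1 (Fintype.card (δ × β))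
  exact (bd_pow_of_frames p a π hπ (by linarith) X hX hcl hm).of_pow α hm (by linarith) hlt

end frame

end Pool.Agent.H15.ER
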