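import Pool.Agent.H15.ER.Univ
import Pool.Agent.H15.ER.Frame

/-!
# The gap theorem
-/

open TensorProduct Module Filter Topology

namespace Pool.Agent.H15.ER

open Pool.Agent.H15.Defect Pool.Agent.H2.WG Pool.Agent.H14.MM
open Pool.Agent.H14.RF hiding tr

universe u

variable {k : Type u} [Field k] [IsAlgClosed k]

/-- For the quotients of dimension `d` of a fixed algebra, the growth rates cannot accumulate
from above. -/
theorem gap_bd_of {P : Type u} [CommRing P] [Algebra k P] {β : Type} [Fintype β]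
    (p : Basis β k P) (d : ℕ)
    (hP : ∀ (A : Type u) [CommRing A] [Algebra k A] [Module.Finite k A] [Nontrivial A],
      finrank k A = d → ∃ f : P →ₐ[k] A, Function.Surjective f) {r₀ : ℝ} (hr : 1 ≤ r₀) :
    ∃ r₁ : ℝ, r₀ < r₁ ∧ ∀ (A : Type u) [CommRing A] [Algebra k A] [Module.Finite k A]
      [Nontrivial A], finrank k A = d → Bd k A r₁ → Bd k A r₀ := by
  classical
  by_contra hcon
  push Not at hcon
  have hq : ∀ n : ℕ, ∃ q : Qt k P (Fin d), Function.Surjective q.π ∧
      Nonempty (q.B →ₐ[k] k) ∧ Bd k q.B (r₀ + 1 / (n + 1)) ∧ ¬ Bd k q.B r₀ := by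
    intro n
    obtain ⟨A, _, _, _, _, hd, h1, h2⟩ := hcon (r₀ + 1 / (n + 1)) (by
      have : (0 : ℝ) < 1 / (n + 1) := by positivity
      linarith)
    obtain ⟨f, hf⟩ := hP A hd
    let b := (Module.finBasis k A).reindex (finCongr hd)
    exact ⟨⟨A, b, f⟩, hf, exists_point, h1, h2⟩
  choose q hsurj hpt h1 h2 using hq
  obtain ⟨j, hj⟩ := exists_inClosure_tails fun n => frame p (q n).b (q n).π
  apply h2 j
  obtain ⟨α⟩ := hpt j
  intro ρ hρ
  obtain ⟨N, hN⟩ := exists_nat_one_div_lt (show (0 : ℝ) < ρ - r₀ by linarith)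
  have h3 : Bd k (q j).B (r₀ + 1 / (N + 1)) := by
    refine bd_of_frames p (q j).b (q j).π (hsurj j) α ?_ _ ?_ (hj N)
    · have : (0 : ℝ) < 1 / (N + 1) := by positivity
      linarith
    · rintro x ⟨i, hi, rfl⟩
      refine ⟨q i, rfl, (h1 i).mono ?_⟩
      have h4 : (1 : ℝ) / (i + 1) ≤ 1 / (N + 1) := by
        apply one_div_le_one_div_of_le (by positivity)
        have : (N : ℝ) ≤ i := by exact_mod_cast hi
        linarith
      linarith
  exact h3 ρ (by linarith)

/-- For algebras of dimension `d` the growth rates cannot accumulate from above. -/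
theorem gap_bd (d : ℕ) {r₀ : ℝ} (hr : 1 ≤ r₀) :
    ∃ r₁ : ℝ, r₀ < r₁ ∧ ∀ (A : Type u) [CommRing A] [Algebra k A] [Module.Finite k A]
      [Nontrivial A], finrank k A = d → Bd k A r₁ → Bd k A r₀ := by
  have hTr : Module.Finite k (Tr k d) := finite_Tr d
  exact gap_bd_of (P := Fin d → UU k d) (Pi.basis fun _ : Fin d =>
      Basis.piTensorProduct fun _ : Fin d => Module.finBasis k (Tr k d)) d
    (fun A _ _ _ _ hA => exists_surjection (k := k) d d A hA le_rfl) hr

omit [IsAlgClosed k] in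
theorem tendsto_mono {A : Type u} [CommRing A] [Algebra k A] [Module.Finite k A] [Nontrivial A]
    {ε ε' : ℝ} (hε : ε ≤ ε') (h : Tendsto (growthRatio k A ε) atTop (𝓝 0)) :
    Tendsto (growthRatio k A ε') atTop (𝓝 0) := by
  refine tendsto_of_tendsto_of_tendsto_of_le_of_le tendsto_const_nhds h (fun _ => bot_le) ?_
  intro n
  have h1 : (1 : ℝ) ≤ finrank k A := by exact_mod_cast Module.finrank_pos (R := k) (M := A)
  apply ENNReal.div_le_div_left
  apply ENNReal.ofReal_le_ofReal
  apply Real.rpow_le_rpow_of_exponent_le h1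
  have : (0 : ℝ) ≤ n := Nat.cast_nonneg n
  nlinarith

/-- The gap theorem for the limits of Q1. -/
theorem gap (d : ℕ) {e : ℝ} (he : 0 ≤ e) :
    ∃ ε₀ : ℝ, e < ε₀ ∧ ∀ (A : Type u) [CommRing A] [Algebra k A] [Module.Finite k A]
      [Nontrivial A], finrank k A = d → Tendsto (growthRatio k A ε₀) atTop (𝓝 0) →
        ∀ ε : ℝ, e < ε → Tendsto (growthRatio k A ε) atTop (𝓝 0) := by
  rcases Nat.lt_or_ge 1 d with hd | hd
  · have hd1 : (1 : ℝ) < d := by exact_mod_cast hd
    have hd0 : (0 : ℝ) < d := by linarith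
    obtain ⟨r₁, hr₁, H⟩ := gap_bd (k := k) d (r₀ := (d : ℝ) ^ (1 + e))
      (Real.one_le_rpow hd1.le (by linarith))
    have hlogd : 0 < Real.log d := Real.log_pos hd1
    have hr0 : 0 < (d : ℝ) ^ (1 + e) := Real.rpow_pos_of_pos hd0 _
    refine ⟨Real.log r₁ / Real.log d - 1, ?_, fun A _ _ _ _ hA h ε hε => ?_⟩
    · rw [lt_sub_iff_add_lt, lt_div_iff₀ hlogd, add_comm, ← Real.log_rpow hd0]
      exact Real.log_lt_log hr0 hr₁
    · set ε₀ : ℝ := Real.log r₁ / Real.log d - 1 with hε₀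
      have h1 : e < ε₀ := by
        rw [hε₀, lt_sub_iff_add_lt, lt_div_iff₀ hlogd, add_comm, ← Real.log_rpow hd0]
        exact Real.log_lt_log hr0 hr₁
      have h2 : (d : ℝ) ^ (1 + ε₀) = r₁ := by
        rw [hε₀, Real.rpow_def_of_pos hd0]
        rw [show Real.log d * (1 + (Real.log r₁ / Real.log d - 1)) = Real.log r₁ by
          field_simp; ring]
        exact Real.exp_log (by linarith)
      obtain ⟨α⟩ := exists_point (k := k) (A := A)
      have h3 : Bd k A ((finrank k A : ℝ) ^ (1 + ε₀)) :=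
        Bd.of_tendsto (by linarith) α fun ε' hε' => tendsto_mono hε'.le h
      rw [hA, h2] at h3
      have h4 := H A hA h3
      rw [← hA] at h4
      exact h4.tendsto hε
  · refine ⟨e + 1, by linarith, fun A _ _ _ _ hA _ ε hε => ?_⟩
    have hpos := Module.finrank_pos (R := k) (M := A)
    have hA1 : finrank k A = 1 := by omega
    refine Bd.tendsto (ε₀ := e) ?_ hε
    intro ρ hρ
    refine ⟨1, fun n => ⟨1, dle_of_finrank_eq_one hA1 n, ?_⟩⟩
    rw [hA1, Nat.cast_one, Real.one_rpow] at hρ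
    have := one_le_pow₀ hρ.le (n := n)
    push_cast
    linarith

end Pool.Agent.H15.ER
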