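import Pool.Agent.H15.ER.Fac
import Pool.Agent.H15.ER.Gap

/-!
# Independence of the field
-/

open TensorProduct Module MvPolynomial Filter Topology

namespace Pool.Agent.H15.ER

open Pool.Agent.H15.Defect Pool.Agent.H2.WG Pool.Agent.H14.MM
open Pool.Agent.H14.RF hiding tr

universe u

section

variable {K k : Type*} [Field K] [Field k] [Algebra K k] [IsAlgClosed K] [IsAlgClosed k]
  {σ : Type} [Finite σ] {c : ℕ}

/-- Forms over the small field with apolar algebra of dimension at most `d` are dense. -/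
theorem inClosure_bc {φ : MvPolynomial σ k →ₗ[k] k} (hφ : IsForm φ c) {d : ℕ}
    (hd : finrank k (FormAlg φ) ≤ d) :
    InClosure {x : Exps σ c → k | ∃ ψ : MvPolynomial σ K →ₗ[K] K, IsForm ψ c ∧
      finrank K (FormAlg ψ) ≤ d ∧ x = cf c (bc k c ψ)} (cf c φ) := by
  classical
  have := finite_exps σ c
  have := finite_box σ c
  intro P hP
  obtain ⟨u, w, huw⟩ := exists_fac hφ hd
  let T := Exps σ c ⊕ ((Box σ c × Fin d) ⊕ (Box σ c × Fin d))
  let S : Set (MvPolynomial T K) := {p | ∃ a b : Box σ c,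
    p = (if h : (a.1 + b.1).degree = c then X (Sum.inl ⟨a.1 + b.1, h⟩) else 0) -
      ∑ i, X (Sum.inr (Sum.inl (a, i))) * X (Sum.inr (Sum.inr (b, i)))}
  let y : T → k := Sum.elim (cf c φ) (Sum.elim (fun t => u t.1 t.2) fun t => w t.1 t.2)
  have hy : ∀ p ∈ S, aeval y p = 0 := by
    rintro p ⟨a, b, rfl⟩
    rw [map_sub, map_sum, sub_eq_zero]
    have h1 : ∀ i, aeval y (X (Sum.inr (Sum.inl (a, i))) * X (Sum.inr (Sum.inr (b, i))) :
        MvPolynomial T K) = u a i * w b i := by
      intro i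
      rw [map_mul, aeval_X, aeval_X]
      rfl
    rw [Finset.sum_congr rfl fun i _ => h1 i, ← huw a b]
    split_ifs with h
    · rw [aeval_X]; rfl
    · rw [map_zero, hφ _ h]
  have h2 := dense_points (K := K) (k := k) S (rename Sum.inl P) (fun x hx => ?_) hy
  · rw [eval_rename] at h2
    exact h2
  · rw [eval_rename]
    let v : Exps σ c → K := fun e => x (Sum.inl e)
    refine hP _ ⟨ofCf c v, isForm_ofCf v, ?_, ?_⟩
    · refine finrank_le_of_fac (isForm_ofCf v) (u := fun a i => x (Sum.inr (Sum.inl (a, i))))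
        (w := fun a i => x (Sum.inr (Sum.inr (a, i)))) fun a b => ?_
      have h3 := hx _ ⟨a, b, rfl⟩
      rw [map_sub, map_sum, sub_eq_zero] at h3
      have h4 : ∀ i, aeval x (X (Sum.inr (Sum.inl (a, i))) * X (Sum.inr (Sum.inr (b, i))) :
          MvPolynomial T K) = x (Sum.inr (Sum.inl (a, i))) * x (Sum.inr (Sum.inr (b, i))) := by
        intro i
        rw [map_mul, aeval_X, aeval_X]
      rw [Finset.sum_congr rfl fun i _ => h4 i] at h3
      rw [← h3, ofCf_monomial]
      split_ifs with h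
      · rw [aeval_X]
      · rw [map_zero]
    · rw [bc, cf_ofCf, cf_ofCf]
      rfl

end

section

variable {K k : Type u} [Field K] [Field k] [Algebra K k] [IsAlgClosed K] [IsAlgClosed k]
  {σ : Type} [Fintype σ] {c : ℕ}

/-- The growth rate of a form does not change. -/
theorem gr_bc {φ : MvPolynomial σ K →ₗ[K] K} (hφ : IsForm φ c) (h0 : φ ≠ 0) :
    gr (bc k c φ) c = gr φ c := by
  have : Infinite K := IsAlgClosed.instInfinite
  have : Infinite k := IsAlgClosed.instInfinite
  have h1 := tendsto_Wn hφ h0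
  have h2 := tendsto_Wn (isForm_bc (k := k) φ) (bc_ne_zero (k := k) hφ h0)
  refine tendsto_nhds_unique h2 ?_
  simp only [Wn_bc hφ]
  exact h1

theorem bd_of_subsingleton {k : Type u} [Field k] {A : Type u} [CommRing A] [Algebra k A]
    [Subsingleton A] {r : ℝ} (hr : 0 ≤ r) : Bd k A r := by
  have h1 : Dle k A 0 := dle_subsingleton
  exact (bd_of_dle h1).mono (by simpa using hr)

theorem bd_bc_iff {φ : MvPolynomial σ K →ₗ[K] K} (hφ : IsForm φ c) (h0 : φ ≠ 0) {r : ℝ}
    (hr : 0 ≤ r) : Bd k (FormAlg (bc k c φ)) r ↔ Bd K (FormAlg φ) r := by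
  have : Infinite K := IsAlgClosed.instInfinite
  have : Infinite k := IsAlgClosed.instInfinite
  constructor
  · intro h
    refine bd_of_gr_le hφ h0 ?_
    rw [← gr_bc (k := k) hφ h0]
    exact gr_le_of_bd (isForm_bc φ) hr h
  · intro h
    refine bd_of_gr_le (isForm_bc φ) (bc_ne_zero (k := k) hφ h0) ?_
    rw [gr_bc (k := k) hφ h0]
    exact gr_le_of_bd hφ hr h

/-- Forms: independence of the field. -/
theorem forms_iff {τ : ℝ} (hτ : 0 ≤ τ) (n c D : ℕ) :
    (∀ φ : MvPolynomial (Fin n) K →ₗ[K] K, IsForm φ c → φ ≠ 0 → finrank K (FormAlg φ) ≤ D →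
      Bd K (FormAlg φ) ((finrank K (FormAlg φ) : ℝ) ^ τ)) ↔
    (∀ φ : MvPolynomial (Fin n) k →ₗ[k] k, IsForm φ c → φ ≠ 0 → finrank k (FormAlg φ) ≤ D →
      Bd k (FormAlg φ) ((finrank k (FormAlg φ) : ℝ) ^ τ)) := by
  constructor
  · intro H φ hφ h0 hD
    have hfin := hφ.finite
    have hnt := nontrivial_formAlg h0
    have h1 : (1 : ℝ) ≤ finrank k (FormAlg φ) := by
      exact_mod_cast Module.finrank_pos (R := k) (M := FormAlg φ)
    refine bd_of_forms hφ h0 (Real.one_le_rpow h1 hτ) _ ?_ (inClosure_bc (K := K) hφ le_rfl)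
    rintro x ⟨ψ, hψ, hd, rfl⟩
    rw [ofCf_cf (isForm_bc ψ)]
    by_cases hψ0 : ψ = 0
    · have hb0 : bc k c ψ = 0 := by
        refine MvPolynomial.linearMap_ext fun e => LinearMap.ext_ring ?_
        simp only [LinearMap.coe_comp, Function.comp_apply, LinearMap.zero_comp,
          LinearMap.zero_apply]
        rw [bc_monomial hψ, hψ0, LinearMap.zero_apply, map_zero]
      have h2 : Subsingleton (FormAlg (bc k c ψ)) := by
        rw [Ideal.Quotient.subsingleton_iff, Ideal.eq_top_iff_one]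
        intro q
        rw [hb0, LinearMap.zero_apply]
      exact bd_of_subsingleton (by positivity)
    · rw [bd_bc_iff hψ hψ0 (by positivity)]
      refine (H ψ hψ hψ0 (hd.trans hD)).mono ?_
      exact Real.rpow_le_rpow (Nat.cast_nonneg _) (by exact_mod_cast hd) hτ
  · intro H φ hφ h0 hD
    have h1 := H (bc k c φ) (isForm_bc φ) (bc_ne_zero (k := k) hφ h0)
      ((finrank_bc_le hφ).trans hD)
    have h2 := (bd_bc_iff (k := k) hφ h0 (by positivity)).mp h1
    refine h2.mono ?_
    exact Real.rpow_le_rpow (Nat.cast_nonneg _) (by exact_mod_cast finrank_bc_le (k := k) hφ) hτ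

/-- Q1 with a given exponent over a field. -/
theorem field_independence {e : ℝ} (he : 0 ≤ e) :
    (∀ (A : Type u) [CommRing A] [Algebra K A] [Module.Finite K A] [Nontrivial A] (ε : ℝ),
      e < ε → Tendsto (growthRatio K A ε) atTop (𝓝 0)) ↔
    (∀ (A : Type u) [CommRing A] [Algebra k A] [Module.Finite k A] [Nontrivial A] (ε : ℝ),
      e < ε → Tendsto (growthRatio k A ε) atTop (𝓝 0)) := by
  rw [all_iff_forms he, all_iff_forms he]
  have key : ∀ (F : Type u) [Field F] [IsAlgClosed F],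
      (∀ (n c : ℕ) (φ : MvPolynomial (Fin n) F →ₗ[F] F), IsForm φ c → φ ≠ 0 → ∀ ε : ℝ,
        e < ε → Tendsto (growthRatio F (FormAlg φ) ε) atTop (𝓝 0)) ↔
      ∀ (n c D : ℕ) (φ : MvPolynomial (Fin n) F →ₗ[F] F), IsForm φ c → φ ≠ 0 →
        finrank F (FormAlg φ) ≤ D →
          Bd F (FormAlg φ) ((finrank F (FormAlg φ) : ℝ) ^ (1 + e)) := by
    intro F _ _
    constructor
    · intro h n c D φ hφ h0 _
      have h1 := hφ.finite
      have h2 := nontrivial_formAlg h0
      obtain ⟨α⟩ := exists_point (k := F) (A := FormAlg φ)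
      exact Bd.of_tendsto he α fun ε hε => h n c φ hφ h0 ε hε
    · intro h n c φ hφ h0 ε hε
      have h1 := hφ.finite
      have h2 := nontrivial_formAlg h0
      exact (h n c _ φ hφ h0 le_rfl).tendsto hε
  rw [key K, key k]
  constructor
  · intro h n c D
    exact (forms_iff (by linarith) n c D).mp (h n c D)
  · intro h n c D
    exact (forms_iff (by linarith) n c D).mpr (h n c D)

end

end Pool.Agent.H15.ER
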