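import Pool.Agent.H15.ER.Closed
import Pool.Agent.H15.ER.Defs

/-!
# Closedness in terms of all structure constants; adapted bases; Gorenstein algebras
-/

open TensorProduct Module MvPolynomial

namespace Pool.Agent.H15.ER

open Pool.Agent.H15.Defect Pool.Agent.H2.WG
open Pool.Agent.H14.RF hiding tr

universe u

variable {k : Type u} [Field k]

section fin

variable {n : ℕ} {A : Type u} [CommRing A] [Algebra k A]

/-- indices -/
def rhoIdx (n : ℕ) : SI (Fin n) → Fin (n + 1) × Fin (n + 1) × Fin (n + 1) :=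
  fun t => ((_root_.finSuccEquiv n).symm (some t.1), (_root_.finSuccEquiv n).symm t.2.1,
    (_root_.finSuccEquiv n).symm t.2.2)

theorem sc_reindex (b : Basis (Fin (n + 1)) k A) :
    sc (b.reindex (_root_.finSuccEquiv n)) = str b ∘ rhoIdx n := by
  funext t
  simp only [sc, str, rhoIdx, Function.comp_apply, Basis.reindex_apply, Basis.repr_reindex_apply]

/-- The closure property of growth bounds in terms of all structure constants. -/
theorem bd_of_inClosure_fin (b : Basis (Fin (n + 1)) k A) (hb : b 0 = 1) {c : ℕ}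
    (α : A →ₐ[k] k) (hα : RingHom.ker α ^ c = ⊥) (hbα : ∀ i, i ≠ 0 → α (b i) = 0) {r : ℝ}
    (hr : 1 ≤ r) (X : Set (Fin (n + 1) × Fin (n + 1) × Fin (n + 1) → k))
    (hX : ∀ x ∈ X, ∃ (B : Type u) (_ : CommRing B) (_ : Algebra k B)
      (b' : Basis (Fin (n + 1)) k B), b' 0 = 1 ∧ str b' = x ∧ Bd k B r)
    (hcl : InClosure X (str b)) : Bd k A r := by
  refine bd_of_inClosure (b.reindex (_root_.finSuccEquiv n)) ?_ α hα ?_ hr
    ((fun x => x ∘ rhoIdx n) '' X) ?_ ?_
  · rw [Basis.reindex_apply, finSuccEquiv_symm_none, hb]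
  · intro i
    rw [Basis.reindex_apply, finSuccEquiv_symm_some]
    exact hbα _ (Fin.succ_ne_zero i)
  · rintro _ ⟨x, hx, rfl⟩
    obtain ⟨B, iB, jB, b', hb', hs, hBd⟩ := hX x hx
    refine ⟨⟨B, b'.reindex (_root_.finSuccEquiv n), ?_⟩, ?_, hBd⟩
    · rw [Basis.reindex_apply, finSuccEquiv_symm_none, hb']
    · rw [sc_reindex, hs]
  · intro P hP
    rw [sc_reindex]
    have h1 : ∀ x : Fin (n + 1) × Fin (n + 1) × Fin (n + 1) → k,
        eval (x ∘ rhoIdx n) P = eval x (rename (rhoIdx n) P) := fun x => (eval_rename _ _ _).symm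
    rw [h1]
    refine hcl _ fun x hx => ?_
    rw [← h1]
    exact hP _ ⟨x, hx, rfl⟩

end fin

section basis

variable {A : Type u} [CommRing A] [Algebra k A] [Module.Finite k A]

/-- A finite algebra with a point has a basis `1, b₁, …` with `b₁, …` vanishing at the point. -/
theorem exists_adapted_basis (α : A →ₐ[k] k) :
    ∃ (n : ℕ) (b : Basis (Fin (n + 1)) k A), b 0 = 1 ∧ ∀ i, i ≠ 0 → α (b i) = 0 := by
  let K : Submodule k A := LinearMap.ker α.toLinearMap
  let E : A ≃ₗ[k] K × k :=
    { toFun := fun a => (⟨a - algebraMap k A (α a), by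
        rw [LinearMap.mem_ker, AlgHom.toLinearMap_apply, map_sub, AlgHom.commutes]
        simp⟩, α a)
      map_add' := fun x y => by
        ext
        · simp only [map_add, Prod.fst_add, Submodule.coe_add]; ring
        · simp
      map_smul' := fun r x => by
        ext
        · show r • x - algebraMap k A (α (r • x)) = r • (x - algebraMap k A (α x))
          rw [map_smul, smul_eq_mul, map_mul, smul_sub, Algebra.smul_def, Algebra.smul_def]
        · simp
      invFun := fun p => p.1.1 + algebraMap k A p.2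
      left_inv := fun a => by simp
      right_inv := fun p => by
        have h1 : α p.1.1 = 0 := p.1.2
        ext
        · simp [h1]
        · simp [h1] }
  let β := (Module.finBasis k K).prod (Basis.singleton PUnit.{1} k)
  let e : Fin (finrank k K) ⊕ PUnit.{1} ≃ Fin (finrank k K + 1) :=
    (Equiv.optionEquivSumPUnit (Fin (finrank k K))).symm.trans (_root_.finSuccEquiv _).symm
  refine ⟨finrank k K, (β.map E.symm).reindex e, ?_, ?_⟩
  · have h1 : e.symm 0 = Sum.inr PUnit.unit := by simp [e]
    rw [Basis.reindex_apply, h1, Basis.map_apply]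
    show ((β (Sum.inr PUnit.unit)).1 : A) + algebraMap k A (β (Sum.inr PUnit.unit)).2 = 1
    simp [β]
  · intro i hi
    obtain ⟨j, rfl⟩ := Fin.exists_succ_eq.mpr hi
    have h1 : e.symm j.succ = Sum.inl j := by simp [e]
    rw [Basis.reindex_apply, h1, Basis.map_apply]
    show α ((β (Sum.inl j)).1 + algebraMap k A (β (Sum.inl j)).2) = 0
    have h2 : (β (Sum.inl j)).2 = 0 := by simp [β]
    have h3 : α (β (Sum.inl j)).1.1 = 0 := (β (Sum.inl j)).1.2
    rw [h2, map_zero, add_zero, h3]

end basis

section gor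

variable {n : ℕ} {A B : Type u} [CommRing A] [Algebra k A] [CommRing B] [Algebra k B]

/-- The matrix of a bilinear form `f (x * y)`. -/
noncomputable def gorMat (f : Fin (n + 1) → k) :
    Matrix (Fin (n + 1)) (Fin (n + 1)) (MvPolynomial (Fin (n + 1) × Fin (n + 1) × Fin (n + 1)) k) :=
  Matrix.of fun i j => ∑ l, C (f l) * X (i, j, l)

theorem eval_gorMat (b : Basis (Fin (n + 1)) k A) (f : A →ₗ[k] k) :
    (gorMat fun l => f (b l)).map (eval (str b)) = Matrix.of fun i j => f (b i * b j) := by
  ext i j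
  simp only [Matrix.map_apply, gorMat, Matrix.of_apply, map_sum, map_mul, eval_C, eval_X, str]
  conv_rhs => rw [← b.sum_repr (b i * b j), map_sum]
  refine Finset.sum_congr rfl fun l _ => ?_
  rw [map_smul, smul_eq_mul, mul_comm]

theorem mulVec_form (b : Basis (Fin (n + 1)) k A) (f : A →ₗ[k] k) (v : Fin (n + 1) → k)
    (i : Fin (n + 1)) : (Matrix.of fun i j => f (b i * b j)).mulVec v i =
      f (b i * ∑ j, v j • b j) := by
  simp only [Matrix.mulVec, dotProduct, Matrix.of_apply, Finset.mul_sum, map_sum,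
    mul_smul_comm, map_smul, smul_eq_mul]
  exact Finset.sum_congr rfl fun j _ => mul_comm _ _

theorem det_ne_zero_iff (b : Basis (Fin (n + 1)) k A) (f : A →ₗ[k] k) :
    (Matrix.of fun i j => f (b i * b j)).det ≠ 0 ↔ ∀ x, (∀ y, f (x * y) = 0) → x = 0 := by
  classical
  constructor
  · intro h x hx
    have h1 : (Matrix.of fun i j => f (b i * b j)).mulVec (b.repr x) = 0 := by
      funext i
      rw [mulVec_form, b.sum_repr, mul_comm, hx]
      rfl
    have h2 := Matrix.eq_zero_of_mulVec_eq_zero h h1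
    apply b.repr.injective
    ext i
    rw [map_zero]
    exact congrFun h2 i
  · intro h hdet
    obtain ⟨v, hv, hv0⟩ := Matrix.exists_mulVec_eq_zero_iff.mpr hdet
    apply hv
    have h1 : ∑ j, v j • b j = 0 := by
      refine h _ fun y => ?_
      have h2 : ∀ i, f ((∑ j, v j • b j) * b i) = 0 := by
        intro i
        have h3 := congrFun hv0 i
        rw [mulVec_form, mul_comm] at h3
        exact h3
      conv_lhs => rw [← b.sum_repr y, Finset.mul_sum, map_sum]
      refine Finset.sum_eq_zero fun i _ => ?_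
      rw [mul_smul_comm, map_smul, h2, smul_zero]
    exact funext fun j => Fintype.linearIndependent_iff.mp b.linearIndependent v h1 j

/-- The Gorenstein property is open. -/
theorem IsGor.exists_polynomial (h : IsGor k A) (b : Basis (Fin (n + 1)) k A) :
    ∃ P : MvPolynomial (Fin (n + 1) × Fin (n + 1) × Fin (n + 1)) k, eval (str b) P ≠ 0 ∧
      ∀ (B : Type u) [CommRing B] [Algebra k B] (b' : Basis (Fin (n + 1)) k B),
        eval (str b') P ≠ 0 → IsGor k B := by
  classical
  obtain ⟨f, hf⟩ := h
  refine ⟨(gorMat fun l => f (b l)).det, ?_, fun B _ _ b' hb' => ?_⟩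
  · rw [RingHom.map_det, RingHom.mapMatrix_apply, eval_gorMat]
    exact (det_ne_zero_iff b f).mpr hf
  · let f' : B →ₗ[k] k := b'.constr k fun l => f (b l)
    have h1 : (fun l => f (b l)) = fun l => f' (b' l) := by
      funext l
      rw [Basis.constr_basis]
    rw [h1, RingHom.map_det, RingHom.mapMatrix_apply, eval_gorMat] at hb'
    exact ⟨f', (det_ne_zero_iff b' f').mp hb'⟩

theorem IsGor.fst (h : IsGor k (A × B)) : IsGor k A := by
  obtain ⟨f, hf⟩ := h
  refine ⟨f ∘ₗ LinearMap.inl k A B, fun x hx => ?_⟩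
  have h1 := hf (x, 0) fun y => by
    have h2 := hx y.1
    have h3 : ((x, 0) : A × B) * y = LinearMap.inl k A B (x * y.1) := by
      ext <;> simp
    rw [h3]
    exact h2
  exact congrArg Prod.fst h1

theorem IsGor.of_equiv (h : IsGor k A) (e : A ≃ₐ[k] B) : IsGor k B := by
  obtain ⟨f, hf⟩ := h
  refine ⟨f ∘ₗ e.symm.toLinearMap, fun x hx => ?_⟩
  have h1 := hf (e.symm x) fun y => by
    have h2 := hx (e y)
    simpa using h2
  simpa using h1

end gor

end Pool.Agent.H15.ER
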