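import Pool.Agent.H15.ER.Closed
import Pool.Agent.H2.WG.Main

/-!
# Growth bounds are closed conditions on forms
-/

open TensorProduct Module MvPolynomial

namespace Pool.Agent.H15.ER

open Pool.Agent.H15.Defect Pool.Agent.H2.WG
open Pool.Agent.H14.RF hiding tr

universe u

section cf

variable {k : Type*} [Field k] {σ : Type} {c : ℕ}

/-- The coefficients of a form. -/
noncomputable def cf (c : ℕ) (φ : MvPolynomial σ k →ₗ[k] k) : Exps σ c → k := fun e => φ (monomial e.1 1)

open Classical in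
/-- The form with given coefficients. -/
noncomputable def ofCf (c : ℕ) (v : Exps σ c → k) : MvPolynomial σ k →ₗ[k] k :=
  (basisMonomials σ k).constr k fun e => if h : e.degree = c then v ⟨e, h⟩ else 0

open Classical in
theorem ofCf_monomial (v : Exps σ c → k) (e : σ →₀ ℕ) :
    ofCf c v (monomial e 1) = if h : e.degree = c then v ⟨e, h⟩ else 0 := by
  have h := (basisMonomials σ k).constr_basis k
    (fun e => if h : e.degree = c then v ⟨e, h⟩ else 0) e
  rwa [coe_basisMonomials] at h

theorem isForm_ofCf (v : Exps σ c → k) : IsForm (ofCf c v) c := by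
  intro e he
  rw [ofCf_monomial, dif_neg he]

theorem cf_ofCf (v : Exps σ c → k) : cf c (ofCf c v) = v := by
  funext e
  rw [cf, ofCf_monomial, dif_pos e.2]

theorem ofCf_cf {φ : MvPolynomial σ k →ₗ[k] k} (hφ : IsForm φ c) : ofCf c (cf c φ) = φ := by
  refine MvPolynomial.linearMap_ext fun e => LinearMap.ext_ring ?_
  simp only [LinearMap.coe_comp, Function.comp_apply]
  rw [ofCf_monomial]
  split_ifs with h
  · rfl
  · rw [hφ _ h]

open Classical in
/-- The value of the power of a form, as a polynomial in the coefficients of the form. -/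
noncomputable def pwPoly (c m : ℕ) (g : MvPolynomial (Fin m × σ) k) :
    MvPolynomial (Exps σ c) k :=
  ∑ e ∈ g.support, C (coeff e g) *
    ∏ j : Fin m, (if h : (e.curry j).degree = c then X ⟨e.curry j, h⟩ else 0)

theorem totalDegree_pwPoly (m : ℕ) (g : MvPolynomial (Fin m × σ) k) :
    (pwPoly c m g).totalDegree ≤ m := by
  classical
  refine (totalDegree_finsetSum _ _).trans (Finset.sup_le fun e _ => ?_)
  refine (totalDegree_mul _ _).trans ?_
  rw [totalDegree_C, zero_add]
  refine (totalDegree_finsetProd _ _).trans ?_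
  calc ∑ j : Fin m, (if h : (e.curry j).degree = c then (X ⟨e.curry j, h⟩ :
        MvPolynomial (Exps σ c) k) else 0).totalDegree ≤ ∑ j : Fin m, 1 := by
        refine Finset.sum_le_sum fun j _ => ?_
        split_ifs with h
        · rw [totalDegree_X]
        · rw [totalDegree_zero]; exact Nat.zero_le _
    _ = m := by simp

theorem pw_eq_eval {φ : MvPolynomial σ k →ₗ[k] k} (hφ : IsForm φ c) (m : ℕ)
    (g : MvPolynomial (Fin m × σ) k) :
    pw φ (Fin m) g = eval (cf c φ) (pwPoly c m g) := by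
  classical
  conv_lhs => rw [← support_sum_monomial_coeff g]
  rw [map_sum, pwPoly, map_sum]
  refine Finset.sum_congr rfl fun e _ => ?_
  have h1 : (monomial e (coeff e g) : MvPolynomial (Fin m × σ) k) =
      coeff e g • monomial e 1 := by
    rw [smul_monomial, smul_eq_mul, mul_one]
  rw [h1, map_smul, pw_monomial, smul_eq_mul, map_mul, eval_C, map_prod]
  congr 1
  refine Finset.prod_congr rfl fun j _ => ?_
  split_ifs with h
  · rw [eval_X]; rfl
  · rw [map_zero, hφ _ h]

end cf

section closed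

variable {k : Type u} [Field k] {σ : Type} [Fintype σ] {c : ℕ}

theorem bd_pow_of_forms {φ : MvPolynomial σ k →ₗ[k] k} (hφ : IsForm φ c) {r : ℝ}
    (hr : 0 ≤ r) (X : Set (Exps σ c → k)) (hX : ∀ x ∈ X, Bd k (FormAlg (ofCf c x)) r)
    (hcl : InClosure X (cf c φ)) {m : ℕ} (hm : 0 < m) :
    Bd k (⨂[k] _ : Fin m, FormAlg φ) (((m * 1 + 1 : ℕ) : ℝ) ^ (Nat.card (Exps σ c)) * r ^ m) := by
  classical
  have := finite_exps σ c
  have : Fintype (Exps σ c) := Fintype.ofFinite _
  have := hφ.finite
  obtain ⟨s, hsX, hcard, htest⟩ := hcl.exists_finset m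
  have h1 := Cov.finset (k := k) (S := MvPolynomial (Fin m × σ) k) s
    (fun x => RingHom.ker (Theta (ofCf c x) m)) (r := r ^ m)
      (fun x hx => ⟨_, _, _, Theta (ofCf c x) m, le_rfl, (hX x (hsX x hx)).pow hr hm⟩)
  have h2 : (⨅ x ∈ s, RingHom.ker (Theta (ofCf c x) m)) ≤ RingHom.ker (Theta φ m) := by
    intro f hf
    simp only [Ideal.mem_iInf] at hf
    rw [RingHom.mem_ker]
    refine Theta_eq_zero φ fun q => ?_
    rw [pw_eq_eval hφ]
    refine htest _ (totalDegree_pwPoly _ _) fun x hx => ?_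
    have h3 := RingHom.mem_ker.mp (hf x hx)
    have h4 := pw_eq_eval (isForm_ofCf x) m (f * q)
    rw [← prodFun_Theta, map_mul, h3, zero_mul, map_zero, cf_ofCf] at h4
    exact h4.symm
  obtain ⟨Q, _, _, F, hF, hQ⟩ := h1.mono h2 (s := ((m * 1 + 1 : ℕ) : ℝ) ^
      (Nat.card (Exps σ c)) * r ^ m) (by
    have h5 : (s.card : ℝ) ≤ ((m * 1 + 1 : ℕ) : ℝ) ^ (Nat.card (Exps σ c)) := by
      rw [mul_one, Nat.card_eq_fintype_card]
      exact_mod_cast hcard
    gcongr)
  exact hQ.of_ker_le F (Theta φ m) (Theta_surjective φ m) hF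

/-- A growth bound which holds on a set of forms holds in the Zariski closure. -/
theorem bd_of_forms [IsAlgClosed k] {φ : MvPolynomial σ k →ₗ[k] k} (hφ : IsForm φ c)
    (hφ0 : φ ≠ 0) {r : ℝ}
    (hr : 1 ≤ r) (X : Set (Exps σ c → k)) (hX : ∀ x ∈ X, Bd k (FormAlg (ofCf c x)) r)
    (hcl : InClosure X (cf c φ)) : Bd k (FormAlg φ) r := by
  have := hφ.finite
  have := nontrivial_formAlg hφ0
  obtain ⟨α⟩ := exists_point (k := k) (A := FormAlg φ)
  intro ρ hρ
  obtain ⟨m, hm, hlt⟩ := exists_pow_lt' (by linarith) hρ 1 (Nat.card (Exps σ c))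
  exact (bd_pow_of_forms hφ (by linarith) X hX hcl hm).of_pow α hm (by linarith) hlt

end closed

end Pool.Agent.H15.ER
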