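import Mathlib

/-!
# Zariski closures and finite sets of evaluations
-/

open MvPolynomial Module

namespace Pool.Agent.H15.ER

variable {k : Type*} [Field k] {σ : Type*}

/-- `c` lies in the Zariski closure of `X`. -/
def InClosure (X : Set (σ → k)) (c : σ → k) : Prop :=
  ∀ P : MvPolynomial σ k, (∀ x ∈ X, eval x P = 0) → eval c P = 0

section interp

variable [Fintype σ]

/-- exponents -/
noncomputable def toExp (D : ℕ) (n : σ → Fin (D + 1)) : σ →₀ ℕ :=
  Finsupp.equivFunOnFinite.symm fun i => (n i : ℕ)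

theorem toExp_injective (D : ℕ) : Function.Injective (toExp (σ := σ) D) := by
  intro n n' h
  have h1 := Finsupp.equivFunOnFinite.symm.injective h
  funext i
  exact Fin.ext (congrFun h1 i)

theorem eval_eq_sum_box [DecidableEq σ] {D : ℕ} {P : MvPolynomial σ k} (hP : P.totalDegree ≤ D) (x : σ → k) :
    eval x P = ∑ n : σ → Fin (D + 1), coeff (toExp D n) P * ∏ i, x i ^ (n i : ℕ) := by
  rw [eval_eq']
  have h1 : ∑ n : σ → Fin (D + 1), coeff (toExp D n) P * ∏ i, x i ^ (n i : ℕ) =
      ∑ d ∈ Finset.univ.image (toExp (σ := σ) D), coeff d P * ∏ i, x i ^ d i := by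
    rw [Finset.sum_image fun a _ b _ hab => toExp_injective D hab]
    rfl
  rw [h1]
  refine Finset.sum_subset ?_ ?_
  · intro d hd
    have h2 : ∀ i, d i < D + 1 := by
      intro i
      have h3 := le_totalDegree hd
      have h4 : d i ≤ d.sum fun _ e => e := by
        rw [Finsupp.sum_fintype _ _ (fun _ => rfl)]
        exact Finset.single_le_sum (f := fun i => d i) (fun _ _ => Nat.zero_le _)
          (Finset.mem_univ i)
      omega
    refine Finset.mem_image.mpr ⟨fun i => ⟨d i, h2 i⟩, Finset.mem_univ _, ?_⟩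
    ext i
    simp [toExp]
  · intro d _ hd
    rw [notMem_support_iff.mp hd, zero_mul]

/-- Vanishing of polynomials of bounded degree on a set can be tested on few points. -/
theorem exists_finset_test (X : Set (σ → k)) (D : ℕ) :
    ∃ s : Finset (σ → k), (∀ x ∈ s, x ∈ X) ∧ s.card ≤ (D + 1) ^ Fintype.card σ ∧
      ∀ P : MvPolynomial σ k, P.totalDegree ≤ D → (∀ x ∈ s, eval x P = 0) →
        ∀ x ∈ X, eval x P = 0 := by
  classical
  let v : (σ → k) → ((σ → Fin (D + 1)) → k) := fun x n => ∏ i, x i ^ (n i : ℕ)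
  obtain ⟨b, hbt, hspan, hli⟩ := exists_linearIndependent k (v '' X)
  have hfin : b.Finite := hli.setFinite
  have : Fintype b := hfin.fintype
  have hcard : Fintype.card b ≤ (D + 1) ^ Fintype.card σ := by
    have h1 := hli.fintype_card_le_finrank
    rwa [finrank_fintype_fun_eq_card, Fintype.card_fun, Fintype.card_fin] at h1
  have hpre : ∀ y : b, ∃ x ∈ X, v x = y := fun y => hbt y.2
  choose g hgX hgv using hpre
  refine ⟨Finset.univ.image g, ?_, ?_, ?_⟩
  · intro x hx
    obtain ⟨y, -, rfl⟩ := Finset.mem_image.mp hx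
    exact hgX y
  · exact Finset.card_image_le.trans (by simpa using hcard)
  · intro P hP h x hx
    let L : ((σ → Fin (D + 1)) → k) →ₗ[k] k :=
      ∑ n : σ → Fin (D + 1), coeff (toExp D n) P • LinearMap.proj n
    have hL : ∀ z : σ → k, eval z P = L (v z) := by
      intro z
      rw [eval_eq_sum_box hP]
      simp [L, v]
    have h1 : v x ∈ Submodule.span k b := by
      rw [hspan]
      exact Submodule.subset_span ⟨x, hx, rfl⟩
    have h2 : Submodule.span k b ≤ LinearMap.ker L := by
      rw [Submodule.span_le]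
      intro y hy
      have h3 := h (g ⟨y, hy⟩) (Finset.mem_image.mpr ⟨⟨y, hy⟩, Finset.mem_univ _, rfl⟩)
      rw [hL, hgv] at h3
      exact h3
    rw [hL]
    exact h2 h1

theorem InClosure.exists_finset {X : Set (σ → k)} {c : σ → k} (h : InClosure X c) (D : ℕ) :
    ∃ s : Finset (σ → k), (∀ x ∈ s, x ∈ X) ∧ s.card ≤ (D + 1) ^ Fintype.card σ ∧
      ∀ P : MvPolynomial σ k, P.totalDegree ≤ D → (∀ x ∈ s, eval x P = 0) → eval c P = 0 := by
  obtain ⟨s, h1, h2, h3⟩ := exists_finset_test X D
  exact ⟨s, h1, h2, fun P hP hs => h P (h3 P hP hs)⟩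

/-- A sequence of points is eventually in the closure of its tail. -/
theorem exists_inClosure_tail (x : ℕ → σ → k) :
    ∃ j, InClosure {y | ∃ i, j < i ∧ x i = y} (x j) := by
  let I : ℕ →o Ideal (MvPolynomial σ k) :=
    ⟨fun j => vanishingIdeal k {y | ∃ i, j ≤ i ∧ x i = y}, by
      intro j j' h
      apply vanishingIdeal_anti_mono
      rintro y ⟨i, hi, rfl⟩
      exact ⟨i, h.trans hi, rfl⟩⟩
  obtain ⟨n, hn⟩ := monotone_stabilizes_iff_noetherian.mpr
    (inferInstance : IsNoetherian (MvPolynomial σ k) (MvPolynomial σ k)) I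
  refine ⟨n, fun P hP => ?_⟩
  have h1 : P ∈ I (n + 1) := by
    show P ∈ vanishingIdeal k _
    rw [mem_vanishingIdeal_iff]
    rintro y ⟨i, hi, rfl⟩
    exact hP _ ⟨i, by omega, rfl⟩
  rw [← hn (n + 1) (by omega)] at h1
  have h2 : P ∈ vanishingIdeal k {y | ∃ i, n ≤ i ∧ x i = y} := h1
  rw [mem_vanishingIdeal_iff] at h2
  exact h2 _ ⟨n, le_rfl, rfl⟩

end interp

end Pool.Agent.H15.ER
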