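import Pool.Agent.H15.ER.FieldInd

/-!
# The reduction of Q1 to elementary Gorenstein schemes
-/

open TensorProduct Module MvPolynomial Filter Topology

namespace Pool.Agent.H15.ER

open Pool.Agent.H15.Defect Pool.Agent.H2.WG Pool.Agent.H14.MM
open Pool.Agent.H14.RF hiding tr

universe u

variable {k : Type u} [Field k] [IsAlgClosed k]

/-- Reduction in degrees at most `D`, for a class of algebras which is open and closed under
factors, in terms of limits. -/
theorem limits_reduction {e : ℝ} (he : 0 ≤ e)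
    (G : ∀ (A : Type u) [CommRing A] [Algebra k A], Prop)
    (hG1 : ∀ (A A₁ A₂ : Type u) [CommRing A] [CommRing A₁] [CommRing A₂] [Algebra k A]
      [Algebra k A₁] [Algebra k A₂], Nonempty (A ≃ₐ[k] A₁ × A₂) → G A → G A₁ ∧ G A₂)
    (hG2 : ∀ (n : ℕ) (A : Type u) [CommRing A] [Algebra k A] (b : Basis (Fin (n + 1)) k A),
      G A → ∃ P : MvPolynomial (Fin (n + 1) × Fin (n + 1) × Fin (n + 1)) k,
        eval (str b) P ≠ 0 ∧ ∀ (B : Type u) [CommRing B] [Algebra k B]
          (b' : Basis (Fin (n + 1)) k B), eval (str b') P ≠ 0 → G B)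
    (D : ℕ)
    (H : ∀ (A : Type u) [CommRing A] [Algebra k A] [Module.Finite k A] [Nontrivial A],
      finrank k A ≤ D → G A → IsElementary k A →
        ∀ ε : ℝ, e < ε → Tendsto (growthRatio k A ε) atTop (𝓝 0))
    (A : Type u) [CommRing A] [Algebra k A] [Module.Finite k A] [Nontrivial A]
    (hD : finrank k A ≤ D) (hA : G A) {ε : ℝ} (hε : e < ε) :
    Tendsto (growthRatio k A ε) atTop (𝓝 0) := by
  refine Bd.tendsto (ε₀ := e) ?_ hε
  refine reduction (by linarith) G hG1 hG2 D (fun B _ _ _ hBD hBG hBE => ?_) _ A rfl hD hA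
  have hnt : Nontrivial B := by
    obtain ⟨n, b, -, hb, -⟩ := hBE
    exact nontrivial_of_ne (b 0) 0 (b.ne_zero 0)
  obtain ⟨β⟩ := exists_point (k := k) (A := B)
  exact Bd.of_tendsto he β fun ε hε => H B hBD hBG hBE ε hε

omit [IsAlgClosed k] in
theorem isGor_factors (A A₁ A₂ : Type u) [CommRing A] [CommRing A₁] [CommRing A₂] [Algebra k A]
    [Algebra k A₁] [Algebra k A₂] (hE : Nonempty (A ≃ₐ[k] A₁ × A₂)) (h : IsGor k A) :
    IsGor k A₁ ∧ IsGor k A₂ := by
  obtain ⟨E⟩ := hE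
  have h1 := h.of_equiv E
  let sw : (A₁ × A₂) ≃ₐ[k] (A₂ × A₁) := AlgEquiv.ofAlgHom
    ((AlgHom.snd k A₁ A₂).prod (AlgHom.fst k A₁ A₂))
    ((AlgHom.snd k A₂ A₁).prod (AlgHom.fst k A₂ A₁)) rfl rfl
  exact ⟨h1.fst, (h1.of_equiv sw).fst⟩

omit [IsAlgClosed k] in
theorem isGor_formAlg {σ : Type} (φ : MvPolynomial σ k →ₗ[k] k) : IsGor k (FormAlg φ) :=
  ⟨ff φ, fun _ hx => ff_nondeg hx⟩

/-- All schemes, in degrees at most `D`. -/
theorem all_of_elementary {e : ℝ} (he : 0 ≤ e) (D : ℕ)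
    (H : ∀ (A : Type u) [CommRing A] [Algebra k A] [Module.Finite k A] [Nontrivial A],
      finrank k A ≤ D → IsElementary k A →
        ∀ ε : ℝ, e < ε → Tendsto (growthRatio k A ε) atTop (𝓝 0))
    (A : Type u) [CommRing A] [Algebra k A] [Module.Finite k A] [Nontrivial A]
    (hD : finrank k A ≤ D) {ε : ℝ} (hε : e < ε) :
    Tendsto (growthRatio k A ε) atTop (𝓝 0) :=
  limits_reduction he (fun _ _ _ => True) (fun _ _ _ _ _ _ _ _ _ _ _ => ⟨trivial, trivial⟩)
    (fun _ _ _ _ _ _ => ⟨1, by simp, fun _ _ _ _ _ => trivial⟩) D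
    (fun A _ _ _ _ h1 _ h2 => H A h1 h2) A hD trivial hε

/-- Gorenstein schemes, in degrees at most `D`. -/
theorem gor_of_elementary {e : ℝ} (he : 0 ≤ e) (D : ℕ)
    (H : ∀ (A : Type u) [CommRing A] [Algebra k A] [Module.Finite k A] [Nontrivial A],
      finrank k A ≤ D → IsGor k A → IsElementary k A →
        ∀ ε : ℝ, e < ε → Tendsto (growthRatio k A ε) atTop (𝓝 0))
    (A : Type u) [CommRing A] [Algebra k A] [Module.Finite k A] [Nontrivial A]
    (hD : finrank k A ≤ D) (hA : IsGor k A) {ε : ℝ} (hε : e < ε) :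
    Tendsto (growthRatio k A ε) atTop (𝓝 0) :=
  limits_reduction he (fun A _ _ => IsGor k A) isGor_factors
    (fun _ _ _ _ b h => h.exists_polynomial b) D H A hD hA hε

/-- All schemes, from elementary Gorenstein schemes. -/
theorem all_of_elementary_gor {e : ℝ} (he : 0 ≤ e)
    (H : ∀ (A : Type u) [CommRing A] [Algebra k A] [Module.Finite k A] [Nontrivial A],
      IsGor k A → IsElementary k A →
        ∀ ε : ℝ, e < ε → Tendsto (growthRatio k A ε) atTop (𝓝 0)) :
    ∀ (A : Type u) [CommRing A] [Algebra k A] [Module.Finite k A] [Nontrivial A] (ε : ℝ),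
      e < ε → Tendsto (growthRatio k A ε) atTop (𝓝 0) := by
  rw [all_iff_forms he]
  intro n c φ hφ h0 ε hε
  have := hφ.finite
  have := nontrivial_formAlg h0
  exact gor_of_elementary he _ (fun A _ _ _ _ _ h1 h2 => H A h1 h2) (FormAlg φ) le_rfl
    (isGor_formAlg φ) hε

/-- One exponent for each degree. -/
theorem exists_exponents (k : Type u) [Field k] [IsAlgClosed k] {e : ℝ} (he : 0 ≤ e) :
    ∃ ε₀ : ℕ → ℝ, (∀ d, e < ε₀ d) ∧
      ∀ (A : Type u) [CommRing A] [Algebra k A] [Module.Finite k A] [Nontrivial A],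
        Tendsto (growthRatio k A (ε₀ (finrank k A))) atTop (𝓝 0) →
          ∀ ε : ℝ, e < ε → Tendsto (growthRatio k A ε) atTop (𝓝 0) := by
  choose ε₀ h1 h2 using fun d : ℕ => gap (k := k) d he
  exact ⟨ε₀, h1, fun A _ _ _ _ h => h2 _ A rfl h⟩

end Pool.Agent.H15.ER
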