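import Pool.Agent.H15.ER.SQ
import Pool.Agent.H15.ER.Interp

/-!
# Coordinates of products are polynomials in the structure constants
-/

open TensorProduct Module MvPolynomial

namespace Pool.Agent.H15.ER

open Pool.Agent.H15.Defect Pool.Agent.H14.RF

universe u

/-- The index set of the structure constants (basis `1, (b i)_{i : τ}`). -/
abbrev SI (τ : Type) : Type := τ × Option τ × Option τ

section sc

variable {k : Type u} [Field k] {τ : Type} {A : Type u} [CommRing A] [Algebra k A]

/-- The structure constants of an algebra in a basis indexed by `Option τ`. -/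
noncomputable def sc (b : Basis (Option τ) k A) : SI τ → k :=
  fun t => b.repr (b (some t.1) * b t.2.1) t.2.2

theorem repr_mul [Fintype τ] (b : Basis (Option τ) k A) (i : τ) (x : A) (t : Option τ) :
    b.repr (b (some i) * x) t = ∑ j, sc b (i, j, t) * b.repr x j := by
  classical
  conv_lhs => rw [← b.sum_repr x]
  rw [Finset.mul_sum, map_sum, Finsupp.coe_finsetSum, Finset.sum_apply]
  refine Finset.sum_congr rfl fun j _ => ?_
  rw [mul_smul_comm, map_smul, Finsupp.smul_apply, smul_eq_mul, mul_comm]
  rfl

/-- The generators of the `m`-th power. -/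
noncomputable def gen (b : Basis (Option τ) k A) (m : ℕ) (q : Fin m × τ) : ⨂[k] _ : Fin m, A :=
  PiTensorProduct.singleAlgHom (R := k) (A := fun _ : Fin m => A) q.1 (b (some q.2))

/-- The basis of the `m`-th power. -/
noncomputable def bm [Finite τ] (b : Basis (Option τ) k A) (m : ℕ) :
    Basis (Fin m → Option τ) k (⨂[k] _ : Fin m, A) := Basis.piTensorProduct fun _ : Fin m => b

theorem repr_gen_mul [Fintype τ] (b : Basis (Option τ) k A) {m : ℕ} (q : Fin m × τ)
    (z : ⨂[k] _ : Fin m, A) (y : Fin m → Option τ) :
    (bm b m).repr (gen b m q * z) y =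
      ∑ j, sc b (q.2, j, y q.1) * (bm b m).repr z (Function.update y q.1 j) := by
  classical
  induction z using PiTensorProduct.induction_on with
  | smul_tprod r x =>
    have h1 : gen b m q * r • PiTensorProduct.tprod k x =
        r • PiTensorProduct.tprod k (Function.update x q.1 (b (some q.2) * x q.1)) := by
      rw [mul_smul_comm]
      congr 1
      rw [gen, PiTensorProduct.singleAlgHom_apply, PiTensorProduct.tprod_mul_tprod]
      congr 1
      funext l
      by_cases hl : l = q.1
      · subst hl
        simp
      · rw [Function.update_of_ne hl, Pi.mul_apply, MonoidHom.mulSingle_apply,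
          Pi.mulSingle_eq_of_ne hl, one_mul]
    rw [h1, map_smul, Finsupp.smul_apply, bm, Basis.piTensorProduct_repr_tprod_apply,
      ← Finset.mul_prod_erase Finset.univ _ (Finset.mem_univ q.1), Function.update_self,
      repr_mul, smul_eq_mul, Finset.sum_mul, Finset.mul_sum]
    refine Finset.sum_congr rfl fun j _ => ?_
    rw [map_smul, Finsupp.smul_apply, Basis.piTensorProduct_repr_tprod_apply,
      ← Finset.mul_prod_erase Finset.univ _ (Finset.mem_univ q.1), Function.update_self,
      smul_eq_mul]
    have h2 : ∏ l ∈ Finset.univ.erase q.1,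
        (b.repr (Function.update x q.1 (b (some q.2) * x q.1) l)) (y l) =
        ∏ l ∈ Finset.univ.erase q.1, (b.repr (x l)) (Function.update y q.1 j l) := by
      refine Finset.prod_congr rfl fun l hl => ?_
      have hl' : l ≠ q.1 := Finset.ne_of_mem_erase hl
      rw [Function.update_of_ne hl', Function.update_of_ne hl']
    rw [h2]
    ring
  | add x z hx hz =>
    rw [mul_add, map_add, Finsupp.add_apply, hx, hz, ← Finset.sum_add_distrib]
    refine Finset.sum_congr rfl fun j _ => ?_
    rw [map_add, Finsupp.add_apply, mul_add]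

end sc

section coord

variable (k : Type u) [Field k] (τ : Type) [Fintype τ] (m : ℕ)

/-- A family of elements of the powers of all algebras with a basis `1, (b i)` whose coordinates
are given by polynomials of degree at most `s` in the structure constants. -/
def CP (s : ℕ) (v : ∀ (B : Type u) [CommRing B] [Algebra k B], Basis (Option τ) k B →
    ⨂[k] _ : Fin m, B) : Prop :=
  ∃ P : (Fin m → Option τ) → MvPolynomial (SI τ) k, (∀ y, (P y).totalDegree ≤ s) ∧
    ∀ (B : Type u) [CommRing B] [Algebra k B] (b : Basis (Option τ) k B), b none = 1 →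
      ∀ y, (bm b m).repr (v B b) y = eval (sc b) (P y)

variable {k τ m}

theorem CP.one : CP k τ m 0 fun _ _ _ _ => 1 := by
  classical
  refine ⟨fun y => if y = fun _ => none then 1 else 0, fun y => ?_, fun B _ _ b hb y => ?_⟩
  · beta_reduce
    split_ifs <;> simp
  · beta_reduce
    rw [PiTensorProduct.one_def, bm, Basis.piTensorProduct_repr_tprod_apply]
    simp only [Pi.one_apply]
    rw [← hb]
    simp only [Basis.repr_self]
    split_ifs with h
    · subst h
      simp
    · rw [map_zero]
      have h1 : ∃ l, y l ≠ none := by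
        by_contra hne
        push Not at hne
        exact h (funext hne)
      obtain ⟨l, hl⟩ := h1
      exact Finset.prod_eq_zero (Finset.mem_univ l) (Finsupp.single_eq_of_ne hl)

theorem CP.mono {s s' : ℕ} {v : ∀ (B : Type u) [CommRing B] [Algebra k B],
    Basis (Option τ) k B → ⨂[k] _ : Fin m, B} (h : CP k τ m s v) (hs : s ≤ s') :
    CP k τ m s' v := by
  obtain ⟨P, h1, h2⟩ := h
  exact ⟨P, fun y => (h1 y).trans hs, h2⟩

theorem CP.zero (s : ℕ) : CP k τ m s fun _ _ _ _ => 0 := by
  refine ⟨fun _ => 0, fun y => by simp, fun B _ _ b hb y => by simp⟩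

theorem CP.add {s : ℕ} {v w : ∀ (B : Type u) [CommRing B] [Algebra k B],
    Basis (Option τ) k B → ⨂[k] _ : Fin m, B} (hv : CP k τ m s v) (hw : CP k τ m s w) :
    CP k τ m s fun B _ _ b => v B b + w B b := by
  obtain ⟨P, h1, h2⟩ := hv
  obtain ⟨P', h1', h2'⟩ := hw
  refine ⟨fun y => P y + P' y, fun y => (totalDegree_add _ _).trans (max_le (h1 y) (h1' y)),
    fun B _ _ b hb y => ?_⟩
  rw [map_add, Finsupp.add_apply, h2 B b hb, h2' B b hb, map_add]

theorem CP.smul {s : ℕ} (r : k) {v : ∀ (B : Type u) [CommRing B] [Algebra k B],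
    Basis (Option τ) k B → ⨂[k] _ : Fin m, B} (hv : CP k τ m s v) :
    CP k τ m s fun B _ _ b => r • v B b := by
  obtain ⟨P, h1, h2⟩ := hv
  refine ⟨fun y => r • P y, fun y => (totalDegree_smul_le _ _).trans (h1 y),
    fun B _ _ b hb y => ?_⟩
  rw [map_smul, Finsupp.smul_apply, h2 B b hb, smul_eval, smul_eq_mul]

theorem CP.sum {s : ℕ} {ι : Type*} (t : Finset ι) (v : ι → ∀ (B : Type u) [CommRing B]
    [Algebra k B], Basis (Option τ) k B → ⨂[k] _ : Fin m, B) (hv : ∀ i ∈ t, CP k τ m s (v i)) :
    CP k τ m s fun B _ _ b => ∑ i ∈ t, v i B b := by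
  classical
  induction t using Finset.induction_on with
  | empty =>
    simpa using CP.zero s
  | insert a t ha ih =>
    have h1 := (hv a (Finset.mem_insert_self a t)).add
      (ih fun i hi => hv i (Finset.mem_insert_of_mem hi))
    simpa [Finset.sum_insert ha] using h1

theorem CP.gen_mul {s : ℕ} {v : ∀ (B : Type u) [CommRing B] [Algebra k B],
    Basis (Option τ) k B → ⨂[k] _ : Fin m, B} (hv : CP k τ m s v) (q : Fin m × τ) :
    CP k τ m (s + 1) fun B _ _ b => gen b m q * v B b := by
  classical
  obtain ⟨P, h1, h2⟩ := hv
  refine ⟨fun y => ∑ j, X (q.2, j, y q.1) * P (Function.update y q.1 j), fun y => ?_,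
    fun B _ _ b hb y => ?_⟩
  · refine (totalDegree_finsetSum _ _).trans (Finset.sup_le fun j _ => ?_)
    refine (totalDegree_mul _ _).trans ?_
    rw [totalDegree_X, add_comm]
    exact Nat.add_le_add_right (h1 _) 1
  · rw [repr_gen_mul, map_sum]
    refine Finset.sum_congr rfl fun j _ => ?_
    rw [map_mul, eval_X, h2 B b hb]

theorem CP.monomial (μ : (Fin m × τ) →₀ ℕ) :
    CP k τ m μ.degree fun B _ _ b => aeval (gen b m) (MvPolynomial.monomial μ (1 : k)) := by
  classical
  induction μ using Finsupp.induction with
  | zero =>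
    have h1 : CP k τ m (Finsupp.degree (0 : (Fin m × τ) →₀ ℕ)) fun _ _ _ _ => 1 := by
      rw [map_zero]
      exact CP.one
    simpa [← MvPolynomial.one_def] using h1
  | single_add q n f hq hn ih =>
    clear hn
    induction n with
    | zero => simpa using ih
    | succ n ihn =>
      have h1 := ihn.gen_mul q
      have h2 : (Finsupp.single q (n + 1) + f).degree = (Finsupp.single q n + f).degree + 1 := by
        rw [map_add, map_add, Finsupp.degree_single, Finsupp.degree_single]
        ring
      rw [h2]
      have h3 : ∀ (B : Type u) [CommRing B] [Algebra k B] (b : Basis (Option τ) k B),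
          gen b m q * aeval (gen b m) (MvPolynomial.monomial (Finsupp.single q n + f) (1 : k)) =
          aeval (gen b m) (MvPolynomial.monomial (Finsupp.single q (n + 1) + f) (1 : k)) := by
        intro B _ _ b
        have h4 : (MvPolynomial.monomial (Finsupp.single q (n + 1) + f)) (1 : k) =
            X q * MvPolynomial.monomial (Finsupp.single q n + f) (1 : k) := by
          rw [X, monomial_mul, one_mul, ← add_assoc, ← Finsupp.single_add, add_comm 1 n]
        rw [h4, map_mul, aeval_X]
      simpa only [h3] using h1

/-- The homogeneous parts of a polynomial. -/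
theorem CP.hom (f : MvPolynomial (Fin m × τ) k) (s : ℕ) :
    CP k τ m s fun B _ _ b => aeval (gen b m) (homogeneousComponent s f) := by
  classical
  have h1 : ∀ (B : Type u) [CommRing B] [Algebra k B] (b : Basis (Option τ) k B),
      aeval (gen b m) (homogeneousComponent s f) =
      ∑ d ∈ f.support with d.degree = s, coeff d f •
        aeval (gen b m) (MvPolynomial.monomial d (1 : k)) := by
    intro B _ _ b
    rw [homogeneousComponent_apply, map_sum]
    refine Finset.sum_congr rfl fun d _ => ?_
    rw [← map_smul, smul_monomial, smul_eq_mul, mul_one]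
  simp only [h1]
  refine CP.sum _ _ fun d hd => ?_
  rw [Finset.mem_filter] at hd
  refine CP.smul _ ?_
  rw [← hd.2]
  exact CP.monomial d

end coord

end Pool.Agent.H15.ER
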