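import Pool.Agent.H14.RF.Growth

/-!
# Growth bounds: subalgebras, tensor products, powers
-/

open TensorProduct Module

namespace Pool.Agent.H15.ER

open Pool.Agent.H15.Defect Pool.Agent.H14.RF

universe u

section powMap

variable {k : Type*} [Field k] {A B : Type*} [CommRing A] [Algebra k A] [CommRing B] [Algebra k B]

/-- The tensor power of a homomorphism. -/
noncomputable def powMap (f : A →ₐ[k] B) (n : ℕ) :
    (⨂[k] _ : Fin n, A) →ₐ[k] (⨂[k] _ : Fin n, B) :=
  prodHom fun i => (PiTensorProduct.singleAlgHom (R := k) (A := fun _ : Fin n => B) i).comp f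

theorem powMap_tprod (f : A →ₐ[k] B) (n : ℕ) (x : Fin n → A) :
    powMap f n (PiTensorProduct.tprod k x) = PiTensorProduct.tprod k fun i => f (x i) := by
  rw [powMap, prodHom_tprod]
  simp only [AlgHom.comp_apply, PiTensorProduct.singleAlgHom_apply, MonoidHom.mulSingle_apply]
  rw [← PiTensorProduct.tprod_prod]
  congr 1
  exact Finset.univ_prod_mulSingle (fun i => f (x i))

theorem powMap_toLinearMap (f : A →ₐ[k] B) (n : ℕ) :
    (powMap f n).toLinearMap = PiTensorProduct.map fun _ => f.toLinearMap := by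
  apply PiTensorProduct.ext
  apply MultilinearMap.ext
  intro x
  simp only [LinearMap.compMultilinearMap_apply, AlgHom.toLinearMap_apply, powMap_tprod,
    PiTensorProduct.map_tprod]

theorem powMap_injective (f : A →ₐ[k] B) (hf : Function.Injective f) (n : ℕ) :
    Function.Injective (powMap f n) := by
  obtain ⟨g, hg⟩ := f.toLinearMap.exists_leftInverse_of_injective (LinearMap.ker_eq_bot.mpr hf)
  have h1 : (PiTensorProduct.map (R := k) fun _ : Fin n => g) ∘ₗ (powMap f n).toLinearMap =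
      LinearMap.id := by
    rw [powMap_toLinearMap, ← PiTensorProduct.map_comp]
    simp only [hg]
    exact PiTensorProduct.map_id
  intro x y hxy
  have h2 := LinearMap.congr_fun h1 x
  have h3 := LinearMap.congr_fun h1 y
  simp only [LinearMap.comp_apply, AlgHom.toLinearMap_apply, LinearMap.id_apply] at h2 h3
  rw [← h2, hxy, h3]

/-- The tensor power of a tensor power is a quotient of a tensor power. -/
theorem exists_surjective_mul (m j : ℕ) :
    ∃ F : (⨂[k] _ : Fin (j * m), A) →ₐ[k] (⨂[k] _ : Fin j, ⨂[k] _ : Fin m, A),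
      Function.Surjective F := by
  refine ⟨prodHom fun t => (PiTensorProduct.singleAlgHom (R := k)
    (A := fun _ : Fin j => ⨂[k] _ : Fin m, A) (finProdFinEquiv.symm t).1).comp
      (PiTensorProduct.singleAlgHom (R := k) (A := fun _ : Fin m => A) (finProdFinEquiv.symm t).2),
    surjective_of_single _ fun i w => ?_⟩
  induction w using PiTensorProduct.induction_on with
  | smul_tprod r x =>
    refine ⟨r • ∏ b, PiTensorProduct.singleAlgHom (R := k) (A := fun _ : Fin (j * m) => A)
      (finProdFinEquiv (i, b)) (x b), ?_⟩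
    rw [map_smul, map_prod, map_smul]
    congr 1
    have h1 : ∀ b, prodHom (fun t => (PiTensorProduct.singleAlgHom (R := k)
        (A := fun _ : Fin j => ⨂[k] _ : Fin m, A) (finProdFinEquiv.symm t).1).comp
          (PiTensorProduct.singleAlgHom (R := k) (A := fun _ : Fin m => A)
            (finProdFinEquiv.symm t).2))
          (PiTensorProduct.singleAlgHom (R := k) (A := fun _ : Fin (j * m) => A)
            (finProdFinEquiv (i, b)) (x b)) =
        PiTensorProduct.singleAlgHom (R := k) (A := fun _ : Fin j => ⨂[k] _ : Fin m, A) i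
          (PiTensorProduct.singleAlgHom (R := k) (A := fun _ : Fin m => A) b (x b)) := by
      intro b
      rw [prodHom_single, Equiv.symm_apply_apply]
      rfl
    rw [Finset.prod_congr rfl fun b _ => h1 b, ← map_prod]
    congr 1
    simp only [PiTensorProduct.singleAlgHom_apply, MonoidHom.mulSingle_apply]
    rw [← PiTensorProduct.tprod_prod, Finset.univ_prod_mulSingle]
  | add x y hx hy =>
    obtain ⟨x', hx⟩ := hx
    obtain ⟨y', hy⟩ := hy
    exact ⟨x' + y', by rw [map_add, hx, hy, map_add]⟩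

/-- `⨂^n A ⊗ ⨂^n B → ⨂^n (A ⊗ B)` -/
theorem exists_surjective_tensor (n : ℕ) :
    ∃ F : (⨂[k] _ : Fin n, A) ⊗[k] (⨂[k] _ : Fin n, B) →ₐ[k] (⨂[k] _ : Fin n, A ⊗[k] B),
      Function.Surjective F := by
  refine ⟨Algebra.TensorProduct.productMap
    (powMap (Algebra.TensorProduct.includeLeft (R := k) (S := k) (A := A) (B := B)) n)
    (powMap (Algebra.TensorProduct.includeRight (R := k) (A := A) (B := B)) n),
    surjective_of_single _ fun i z => ?_⟩
  induction z using TensorProduct.induction_on with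
  | zero => exact ⟨0, by rw [map_zero, map_zero]⟩
  | add x y hx hy =>
    obtain ⟨x', hx⟩ := hx
    obtain ⟨y', hy⟩ := hy
    exact ⟨x' + y', by rw [map_add, hx, hy, map_add]⟩
  | tmul a b =>
    refine ⟨(PiTensorProduct.singleAlgHom (R := k) (A := fun _ : Fin n => A) i a) ⊗ₜ
      (PiTensorProduct.singleAlgHom (R := k) (A := fun _ : Fin n => B) i b), ?_⟩
    rw [Algebra.TensorProduct.productMap_apply_tmul, powMap, powMap, prodHom_single,
      prodHom_single, AlgHom.comp_apply, AlgHom.comp_apply, ← map_mul]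
    congr 1
    simp

end powMap

section bd

variable {k : Type u} [Field k] {A B : Type u} [CommRing A] [Algebra k A] [CommRing B]
  [Algebra k B]

/-- Growth bounds pass to subalgebras. -/
theorem _root_.Pool.Agent.H14.RF.Bd.of_injective {r : ℝ} (h : Bd k B r) (f : A →ₐ[k] B)
    (hf : Function.Injective f) : Bd k A r := by
  intro ρ hρ
  obtain ⟨C, hC⟩ := h ρ hρ
  refine ⟨C, fun n => ?_⟩
  obtain ⟨N, hN, hle⟩ := hC n
  exact ⟨N, hN.of_injective (powMap f n) (powMap_injective f hf n), hle⟩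

/-- Growth bounds pass to algebras presented by larger ideals. -/
theorem _root_.Pool.Agent.H14.RF.Bd.of_ker_le {S : Type u} [CommRing S] [Algebra k S] {r : ℝ}
    (h : Bd k B r) (f : S →ₐ[k] B) (g : S →ₐ[k] A) (hg : Function.Surjective g)
    (hfg : RingHom.ker f ≤ RingHom.ker g) : Bd k A r := by
  have h1 : Bd k f.range r := h.of_injective f.range.val Subtype.val_injective
  refine h1.of_surjective
    (AlgHom.liftOfSurjective f.rangeRestrict f.rangeRestrict_surjective g ?_) ?_
  · intro x hx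
    refine hfg ?_
    rw [RingHom.mem_ker] at hx ⊢
    exact congrArg Subtype.val hx
  · intro a
    obtain ⟨s, rfl⟩ := hg a
    exact ⟨f.rangeRestrict s, AlgHom.liftOfSurjective_apply _ _ _ _ _⟩

theorem _root_.Pool.Agent.H14.RF.Bd.tensor {r s : ℝ} (hr : 0 < r) (hs : 0 < s) (hA : Bd k A r)
    (hB : Bd k B s) : Bd k (A ⊗[k] B) (r * s) := by
  intro ρ hρ
  -- choose `t > 1` with `r t * s t < ρ`
  have hq : 1 < ρ / (r * s) := by rw [one_lt_div (by positivity)]; exact hρ
  set t : ℝ := Real.sqrt (ρ / (r * s)) with ht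
  have ht1 : 1 < t := by rw [ht, Real.lt_sqrt zero_le_one]; simpa using hq
  have htt : t * t = ρ / (r * s) := Real.mul_self_sqrt (by linarith)
  obtain ⟨CA, hCA⟩ := hA (r * t) (by nlinarith)
  obtain ⟨CB, hCB⟩ := hB (s * t) (by nlinarith)
  refine ⟨CA * CB, fun n => ?_⟩
  obtain ⟨N, hN, hle⟩ := hCA n
  obtain ⟨N', hN', hle'⟩ := hCB n
  obtain ⟨F, hF⟩ := exists_surjective_tensor (k := k) (A := A) (B := B) n
  refine ⟨N * N', (hN.tensor hN').of_surjective F hF, ?_⟩
  push_cast
  calc (N : ℝ) * N' ≤ (CA * (r * t) ^ n) * (CB * (s * t) ^ n) :=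
        mul_le_mul hle hle' (Nat.cast_nonneg _) ((Nat.cast_nonneg _).trans hle)
    _ = CA * CB * ((r * t) * (s * t)) ^ n := by rw [mul_pow]; ring
    _ = CA * CB * ρ ^ n := by
        congr 2
        rw [show r * t * (s * t) = r * s * (t * t) by ring, htt]
        field_simp

theorem _root_.Pool.Agent.H14.RF.Bd.pow {r : ℝ} (hr : 0 ≤ r) (hA : Bd k A r) {m : ℕ} (hm : 0 < m) :
    Bd k (⨂[k] _ : Fin m, A) (r ^ m) := by
  intro ρ hρ
  have hρ0 : 0 < ρ := lt_of_le_of_lt (by positivity) hρ
  have h1 : r < ρ ^ (1 / (m : ℝ)) := by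
    have h2 : (ρ ^ (1 / (m : ℝ))) ^ m = ρ := by
      rw [← Real.rpow_natCast, ← Real.rpow_mul hρ0.le, one_div,
        inv_mul_cancel₀ (by positivity), Real.rpow_one]
    by_contra hcon
    push Not at hcon
    have := pow_le_pow_left₀ (by positivity) hcon m
    rw [h2] at this
    linarith
  obtain ⟨C, hC⟩ := hA _ h1
  refine ⟨C, fun n => ?_⟩
  obtain ⟨N, hN, hle⟩ := hC (n * m)
  obtain ⟨F, hF⟩ := exists_surjective_mul (k := k) (A := A) m n
  refine ⟨N, hN.of_surjective F hF, hle.trans (le_of_eq ?_)⟩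
  congr 1
  have h3 : (ρ ^ (1 / (m : ℝ))) ^ m = ρ := by
    rw [← Real.rpow_natCast, ← Real.rpow_mul hρ0.le, one_div,
      inv_mul_cancel₀ (by positivity), Real.rpow_one]
  rw [mul_comm, pow_mul, h3]

/-- A bound for the growth of a power gives a bound for the growth. -/
theorem _root_.Pool.Agent.H14.RF.Bd.of_pow (α : A →ₐ[k] k) {m : ℕ} (hm : 0 < m) {s ρ : ℝ}
    (hρ1 : 1 ≤ ρ) (h : Bd k (⨂[k] _ : Fin m, A) s) (hs : s < ρ ^ m) :
    ∃ C : ℝ, ∀ n : ℕ, ∃ N : ℕ, Dle k (⨂[k] _ : Fin n, A) N ∧ (N : ℝ) ≤ C * ρ ^ n := by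
  obtain ⟨C, hC⟩ := h _ hs
  refine ⟨C * ρ ^ m, fun N => ?_⟩
  obtain ⟨D, hD, hDle⟩ := hC (N / m + 1)
  obtain ⟨F, hF⟩ := exists_surjective_pow_mul (AlgHom.id k (⨂[k] _ : Fin m, A))
    Function.surjective_id (N / m + 1)
  have hN : N ≤ (N / m + 1) * m := by
    have := Nat.div_add_mod N m
    have := Nat.mod_lt N hm
    nlinarith
  obtain ⟨F', hF'⟩ := exists_surjective_pow_le α hN
  refine ⟨D, (hD.of_surjective F hF).of_surjective F' hF', hDle.trans ?_⟩
  have hρ0 : 0 < ρ := by linarith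
  have hC0 : 0 ≤ C := by
    have h0 : 0 ≤ C * (ρ ^ m) ^ (N / m + 1) := (Nat.cast_nonneg _).trans hDle
    exact nonneg_of_mul_nonneg_left h0 (by positivity)
  have h2 : (ρ ^ m) ^ (N / m + 1) ≤ ρ ^ m * ρ ^ N := by
    rw [← pow_mul, ← pow_add]
    apply pow_le_pow_right₀ hρ1
    have := Nat.div_mul_le_self N m
    nlinarith
  calc C * (ρ ^ m) ^ (N / m + 1) ≤ C * (ρ ^ m * ρ ^ N) := by gcongr
    _ = _ := by ring

/-- Smoothable algebras. -/
theorem bd_of_dle {N : ℕ} (h : Dle k A N) : Bd k A N := by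
  intro ρ hρ
  refine ⟨1, fun n => ⟨N ^ n, h.pow n, ?_⟩⟩
  push_cast
  rw [one_mul]
  exact pow_le_pow_left₀ (Nat.cast_nonneg _) hρ.le n

/-- A family of presentations: the intersection of kernels. -/
def Cov (k : Type u) [Field k] {S : Type u} [CommRing S] [Algebra k S] (I : Ideal S) (r : ℝ) :
    Prop :=
  ∃ (Q : Type u) (_ : CommRing Q) (_ : Algebra k Q) (f : S →ₐ[k] Q),
    RingHom.ker f ≤ I ∧ Bd k Q r

theorem Cov.inf {S : Type u} [CommRing S] [Algebra k S] {I J : Ideal S} {r s : ℝ}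
    (hI : Cov k I r) (hJ : Cov k J s) : Cov k (I ⊓ J) (r + s) := by
  obtain ⟨Q, _, _, f, hf, hQ⟩ := hI
  obtain ⟨Q', _, _, f', hf', hQ'⟩ := hJ
  refine ⟨Q × Q', inferInstance, inferInstance, f.prod f', ?_, hQ.prod hQ'⟩
  intro x hx
  rw [RingHom.mem_ker] at hx
  have h1 : f x = 0 := congrArg Prod.fst hx
  have h2 : f' x = 0 := congrArg Prod.snd hx
  exact ⟨hf (RingHom.mem_ker.mpr h1), hf' (RingHom.mem_ker.mpr h2)⟩

theorem Cov.mono {S : Type u} [CommRing S] [Algebra k S] {I J : Ideal S} {r s : ℝ}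
    (hI : Cov k I r) (hIJ : I ≤ J) (hrs : r ≤ s) : Cov k J s := by
  obtain ⟨Q, _, _, f, hf, hQ⟩ := hI
  exact ⟨Q, _, _, f, hf.trans hIJ, hQ.mono hrs⟩

/-- finite intersections -/
theorem Cov.finset {S : Type u} [CommRing S] [Algebra k S] {ι : Type*} (s : Finset ι)
    (I : ι → Ideal S) {r : ℝ} (h : ∀ i ∈ s, Cov k (I i) r) :
    Cov k (⨅ i ∈ s, I i) (s.card * r) := by
  classical
  induction s using Finset.induction_on with
  | empty =>
    refine ⟨PUnit.{u + 1}, inferInstance,
      { smul := fun _ _ => PUnit.unit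
        algebraMap := ⟨⟨⟨fun _ => PUnit.unit, rfl⟩, fun _ _ => rfl⟩, rfl, fun _ _ => rfl⟩
        commutes' := fun _ _ => rfl
        smul_def' := fun _ _ => rfl }, ⟨⟨⟨⟨fun _ => PUnit.unit, rfl⟩, fun _ _ => rfl⟩, rfl,
          fun _ _ => rfl⟩, fun _ => rfl⟩, by simp, ?_⟩
    intro ρ hρ
    refine ⟨1, fun n => ?_⟩
    rcases Nat.eq_zero_or_pos n with rfl | hn
    · refine ⟨1, (dle_self k).of_surjective (Algebra.ofId k _) fun z => exists_eq_algebraMap z, ?_⟩
      simp
    · refine ⟨0, ?_, ?_⟩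
      · have : Subsingleton (⨂[k] _ : Fin n, PUnit.{u + 1}) := by
          refine subsingleton_of_forall_eq 0 fun z => ?_
          induction z using PiTensorProduct.induction_on with
          | smul_tprod r f =>
            have h1 : f ⟨0, hn⟩ = 0 := Subsingleton.elim _ _
            rw [(PiTensorProduct.tprod k).map_coord_zero ⟨0, hn⟩ h1, smul_zero]
          | add x y hx hy => rw [hx, hy, add_zero]
        exact dle_subsingleton
      · have h0 : (0 : ℝ) < ρ := by simpa using hρ
        push_cast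
        positivity
  | insert a s ha ih =>
    have h1 := (h a (Finset.mem_insert_self a s))
    have h2 := ih fun i hi => h i (Finset.mem_insert_of_mem hi)
    refine (h1.inf h2).mono ?_ ?_
    · rw [Finset.iInf_insert]
    · rw [Finset.card_insert_of_notMem ha]
      push_cast
      linarith

end bd

end Pool.Agent.H15.ER
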