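import Pool.Agent.H15.ER.PolyDep
import Pool.Agent.H2.WG.Trunc

/-!
# Truncated cones
-/

open TensorProduct Module MvPolynomial

namespace Pool.Agent.H15.ER

open Pool.Agent.H15.Defect Pool.Agent.H2.WG
open Pool.Agent.H14.RF hiding tr

universe u

section gen

variable {k : Type u} [Field k] {P C : Type u} [CommRing P] [Algebra k P] [CommRing C]
  [Algebra k C] {ι : Type*}

/-- The homomorphism sending the variable `q` to `g q ⊗ t`. -/
noncomputable def coneHom (g : ι → P) (t : C) : MvPolynomial ι k →ₐ[k] P ⊗[k] C :=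
  MvPolynomial.aeval (R := k) (S₁ := P ⊗[k] C) fun q => g q ⊗ₜ[k] t

theorem coneHom_monomial (g : ι → P) (t : C) (μ : ι →₀ ℕ) :
    coneHom (k := k) g t (monomial μ 1) = (aeval g (monomial μ (1 : k))) ⊗ₜ (t ^ μ.degree) := by
  classical
  induction μ using Finsupp.induction with
  | zero =>
    rw [← MvPolynomial.one_def, map_one, map_one, map_zero, pow_zero]
    rfl
  | single_add q n f hq hn ih =>
    have h1 : (monomial (Finsupp.single q n + f)) (1 : k) =
        X q ^ n * monomial f (1 : k) := by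
      rw [X_pow_eq_monomial, monomial_mul, one_mul]
    rw [h1, map_mul, map_pow, ih, map_mul, map_pow, coneHom, aeval_X, aeval_X,
      Algebra.TensorProduct.tmul_pow, Algebra.TensorProduct.tmul_mul_tmul, map_add,
      Finsupp.degree_single, pow_add]

theorem aeval_hom_eq_zero (g : ι → P) (t : C) {s : ℕ} (w : C →ₗ[k] k)
    (hw : ∀ j, w (t ^ j) = if j = s then 1 else 0)
    {f : MvPolynomial ι k} (hf : coneHom g t f = 0) :
    aeval g (homogeneousComponent s f) = 0 := by
  let T : P ⊗[k] C →ₗ[k] P :=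
    (TensorProduct.rid k _).toLinearMap ∘ₗ TensorProduct.map LinearMap.id w
  have h1 : T ∘ₗ (coneHom g t).toLinearMap =
      (aeval g).toLinearMap ∘ₗ homogeneousComponent s := by
    refine MvPolynomial.linearMap_ext fun μ => LinearMap.ext_ring ?_
    simp only [LinearMap.comp_apply, AlgHom.toLinearMap_apply]
    rw [coneHom_monomial]
    have h2 : T ((aeval g (monomial μ (1 : k))) ⊗ₜ (t ^ μ.degree)) =
        w (t ^ μ.degree) • aeval g (monomial μ (1 : k)) := by
      simp [T]
    rw [h2, hw, homogeneousComponent_of_mem (isHomogeneous_monomial (1 : k) (rfl : μ.degree = _))]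
    by_cases h : μ.degree = s
    · rw [if_pos h, if_pos h.symm, one_smul]
    · rw [if_neg h, if_neg (Ne.symm h), zero_smul, map_zero]
  have h2 := LinearMap.congr_fun h1 f
  simp only [LinearMap.comp_apply, AlgHom.toLinearMap_apply] at h2
  rw [← h2, hf, map_zero]

end gen

section trunc

variable (k : Type u) [Field k]

theorem exists_trFun' {L s : ℕ} (hs : s ≤ L) :
    ∃ w : Tr k L →ₗ[k] k, ∀ j, w (tr k L ^ j) = if j = s then 1 else 0 := by
  obtain ⟨w, hw⟩ := exists_quotFun (k := k) (Ideal.span {(Polynomial.X : Polynomial k) ^ (L + 1)})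
    (Polynomial.lcoeff k s) (by
      intro r hr
      obtain ⟨q, rfl⟩ := Ideal.mem_span_singleton.mp hr
      rw [Polynomial.lcoeff_apply, Polynomial.coeff_X_pow_mul', if_neg (by omega)])
  refine ⟨w, fun j => ?_⟩
  rw [tr, ← map_pow, hw, Polynomial.lcoeff_apply, Polynomial.coeff_X_pow]
  simp only [eq_comm]

variable {k} {τ : Type} {A : Type u} [CommRing A] [Algebra k A]

/-- The growth of truncated cones. -/
theorem bd_cone {r : ℝ} (hr : 0 < r) (h : Bd k A r) {m : ℕ} (hm : 0 < m) (L : ℕ) :
    Bd k ((⨂[k] _ : Fin m, A) ⊗[k] Tr k L) (r ^ m * (L + 1)) := by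
  have h1 := bd_of_dle (dle_trunc k L)
  push_cast at h1
  exact (h.pow hr.le hm).tensor (by positivity) (by positivity) h1

theorem cov_cone {r : ℝ} (hr : 0 < r) (h : Bd k A r) (b : Basis (Option τ) k A) {m : ℕ}
    (hm : 0 < m) (L : ℕ) :
    Cov k (RingHom.ker (coneHom (k := k) (gen b m) (tr k L))) (r ^ m * (L + 1)) :=
  ⟨_, _, _, coneHom (k := k) (gen b m) (tr k L), le_rfl, bd_cone hr h hm L⟩

theorem hom_eq_zero_of_cone (b : Basis (Option τ) k A) {m L s : ℕ} (hs : s ≤ L)
    {f : MvPolynomial (Fin m × τ) k} (hf : coneHom (gen b m) (tr k L) f = 0) :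
    aeval (gen b m) (homogeneousComponent s f) = 0 := by
  obtain ⟨w, hw⟩ := exists_trFun' k hs
  exact aeval_hom_eq_zero _ _ w hw hf

end trunc

end Pool.Agent.H15.ER
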