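import Pool.Agent.H15.ER.Elem

/-!
# All algebras of a given dimension are quotients of one finite-dimensional algebra
-/

open TensorProduct Module

namespace Pool.Agent.H15.ER

open Pool.Agent.H15.Defect Pool.Agent.H2.WG
open Pool.Agent.H14.RF hiding tr

universe u

variable {k : Type u} [Field k]

theorem finite_Tr (L : ℕ) : Module.Finite k (Tr k L) := by
  obtain ⟨B, _, _, h1, ⟨g, hg⟩, -⟩ := dle_trunc k L
  have := IsSmoothable.finite h1
  exact Module.Finite.of_surjective g.toLinearMap hg

/-- The homomorphism from a truncated polynomial ring given by a nilpotent element. -/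
theorem exists_Tr_hom {A : Type u} [CommRing A] [Algebra k A] {L : ℕ} {x : A}
    (hx : x ^ (L + 1) = 0) : ∃ f : Tr k L →ₐ[k] A, f (tr k L) = x := by
  refine ⟨Ideal.Quotient.liftₐ _ (Polynomial.aeval x) ?_, ?_⟩
  · intro p hp
    obtain ⟨q, rfl⟩ := Ideal.mem_span_singleton.mp hp
    rw [map_mul, map_pow, Polynomial.aeval_X, hx, zero_mul]
  · rw [tr]
    erw [Ideal.Quotient.liftₐ_apply, Ideal.Quotient.lift_mk]
    exact Polynomial.aeval_X x

theorem pow_finrank_eq_zero {A : Type u} [CommRing A] [Algebra k A] [Module.Finite k A] {x : A}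
    (hx : IsNilpotent x) : x ^ finrank k A = 0 := by
  have h1 : IsNilpotent (LinearMap.mulLeft k x) := by
    obtain ⟨n, hn⟩ := hx
    refine ⟨n, ?_⟩
    rw [LinearMap.pow_mulLeft, hn, LinearMap.mulLeft_zero_eq_zero]
  have h2 := (LinearMap.charpoly_eq_X_pow_iff _).mpr
    (show ∀ m : A, ∃ n : ℕ, (LinearMap.mulLeft k x ^ n) m = 0 from fun m => by
      obtain ⟨n, hn⟩ := h1
      exact ⟨n, by rw [hn]; rfl⟩)
  have h3 := LinearMap.aeval_self_charpoly (LinearMap.mulLeft k x)
  rw [h2, map_pow, Polynomial.aeval_X] at h3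
  have h4 := LinearMap.congr_fun h3 1
  rw [LinearMap.pow_mulLeft] at h4
  simpa using h4

/-- The building block. -/
abbrev UU (k : Type u) [Field k] (d : ℕ) : Type u := ⨂[k] _ : Fin d, Tr k d

theorem exists_surjection_local {A : Type u} [CommRing A] [Algebra k A] [Module.Finite k A]
    {d : ℕ} (hd : finrank k A ≤ d) (α : A →ₐ[k] k) {c : ℕ} (hα : RingHom.ker α ^ c = ⊥) :
    ∃ f : UU k d →ₐ[k] A, Function.Surjective f := by
  classical
  obtain ⟨n, b, hb, hbα⟩ := exists_adapted_basis α
  have hn : finrank k A = n + 1 := by rw [finrank_eq_card_basis b, Fintype.card_fin]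
  let x : Fin d → A := fun i => if h : (i : ℕ) + 1 < n + 1 then b ⟨i + 1, h⟩ else 0
  have hx : ∀ i, x i ^ (d + 1) = 0 := by
    intro i
    have h1 : α (x i) = 0 := by
      simp only [x]
      split_ifs with h
      · refine hbα _ fun h0 => ?_
        have := congrArg Fin.val h0
        simp at this
      · exact map_zero α
    have h2 : IsNilpotent (x i) := by
      refine ⟨c, ?_⟩
      have h3 := Ideal.pow_mem_pow (RingHom.mem_ker.mpr h1) c
      rw [hα] at h3
      simpa using h3
    have h4 := pow_finrank_eq_zero (k := k) h2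
    rw [show d + 1 = finrank k A + (d + 1 - finrank k A) by omega, pow_add, h4, zero_mul]
  have hf : ∀ i, ∃ f : Tr k d →ₐ[k] A, f (tr k d) = x i := fun i => exists_Tr_hom (hx i)
  choose f hf using hf
  refine ⟨prodHom f, ?_⟩
  have h5 : (⊤ : Submodule k A) ≤ Subalgebra.toSubmodule (prodHom f).range := by
    rw [← b.span_eq, Submodule.span_le]
    rintro _ ⟨j, rfl⟩
    show b j ∈ (prodHom f).range
    refine Fin.cases ?_ (fun j => ?_) j
    · rw [hb]; exact one_mem _
    · refine ⟨PiTensorProduct.singleAlgHom (R := k) (A := fun _ : Fin d => Tr k d)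
        ⟨j, by omega⟩ (tr k d), ?_⟩
      show prodHom f _ = _
      rw [prodHom_single, hf]
      simp only [x]
      rw [dif_pos (by omega)]
      rfl
  intro a
  exact h5 (Submodule.mem_top (x := a))

theorem exists_surjection [IsAlgClosed k] (d : ℕ) : ∀ (s : ℕ) (A : Type u) [CommRing A]
    [Algebra k A] [Module.Finite k A] [Nontrivial A], finrank k A = s → s ≤ d →
    ∃ f : (Fin s → UU k d) →ₐ[k] A, Function.Surjective f := by
  intro s
  induction s using Nat.strong_induction_on with
  | _ s ih =>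
    intro A _ _ _ _ hs hd
    obtain ⟨α⟩ := exists_point (k := k) (A := A)
    rcases local_or_split α with ⟨c, hc⟩ | ⟨A₁, A₂, _, _, _, _, _, _, _, _, ⟨E⟩⟩
    · obtain ⟨f, hf⟩ := exists_surjection_local (by omega : finrank k A ≤ d) α hc
      have hpos := Module.finrank_pos (R := k) (M := A)
      refine ⟨f.comp (Pi.evalAlgHom k (fun _ : Fin s => UU k d) ⟨0, by omega⟩), ?_⟩
      intro a
      obtain ⟨u, rfl⟩ := hf a
      exact ⟨fun _ => u, rfl⟩
    · have hfr : finrank k A = finrank k A₁ + finrank k A₂ := by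
        rw [← Module.finrank_prod]
        exact LinearEquiv.finrank_eq E.toLinearEquiv
      have hp1 := Module.finrank_pos (R := k) (M := A₁)
      have hp2 := Module.finrank_pos (R := k) (M := A₂)
      obtain ⟨f₁, hf₁⟩ := ih (finrank k A₁) (by omega) A₁ rfl (by omega)
      obtain ⟨f₂, hf₂⟩ := ih (finrank k A₂) (by omega) A₂ rfl (by omega)
      have hs' : s = finrank k A₁ + finrank k A₂ := by omega
      subst hs'
      let g₁ : (Fin (finrank k A₁ + finrank k A₂) → UU k d) →ₐ[k] (Fin (finrank k A₁) → UU k d) :=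
        AlgHom.pi fun i => Pi.evalAlgHom k (fun _ => UU k d) (Fin.castAdd _ i)
      let g₂ : (Fin (finrank k A₁ + finrank k A₂) → UU k d) →ₐ[k] (Fin (finrank k A₂) → UU k d) :=
        AlgHom.pi fun i => Pi.evalAlgHom k (fun _ => UU k d) (Fin.natAdd _ i)
      refine ⟨(E.symm : A₁ × A₂ →ₐ[k] A).comp ((f₁.comp g₁).prod (f₂.comp g₂)), ?_⟩
      intro a
      obtain ⟨u₁, h₁⟩ := hf₁ (E a).1
      obtain ⟨u₂, h₂⟩ := hf₂ (E a).2
      refine ⟨Fin.append u₁ u₂, ?_⟩
      have h3 : g₁ (Fin.append u₁ u₂) = u₁ := by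
        funext i
        show Fin.append u₁ u₂ (Fin.castAdd _ i) = _
        rw [Fin.append_left]
      have h4 : g₂ (Fin.append u₁ u₂) = u₂ := by
        funext i
        show Fin.append u₁ u₂ (Fin.natAdd _ i) = _
        rw [Fin.append_right]
      show E.symm (f₁ (g₁ (Fin.append u₁ u₂)), f₂ (g₂ (Fin.append u₁ u₂))) = a
      rw [h3, h4, h₁, h₂]
      exact E.symm_apply_apply a

end Pool.Agent.H15.ER
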